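import Pool.Agent.L7h66.MG.Prog

/-! Approximation of programs of monotone real gates and maxima. -/

set_option linter.unusedSectionVars false
set_option linter.unusedVariables false

namespace Pool.Agent.L7h66.MG

open Finset Pool.Agent.H560R2

section lin

variable {V P N : Type} [Fintype V] [DecidableEq V] [Fintype P] [DecidableEq P] [Fintype N]
  [DecidableEq N]

/-- one gate with at most `W` inputs -/
lemma gateW {r W : ℕ} {sp : P → Finset V} {sn : N → Finset V} {E : Finset P} {E' : Finset N}
    (hne : ∀ p, (sp p).Nonempty)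
    (hlin : ∀ v v', v ≠ v' → (univ.filter (fun p => v ∈ sp p ∧ v' ∈ sp p)).card ≤ 1)
    {w : ℕ} (hw : w ≤ W) {φ : (Fin w → ℝ) → ℝ} (hφ : Monotone φ) {f : Fin w → Set V → ℝ}
    (β : Fin w → ℝ) (u : Fin w → V → ℝ) (h : ∀ j, ApL r sp sn E E' (f j) (β j) (u j)) :
    ∃ F : Finset P, F.card ≤ (W * r) ^ 2 ∧
      ApL (W * r) sp sn (E ∪ F) E' (fun x => φ (fun j => f j x)) (φ β)
        (fun v => φ (fun j => u j v)) := by
  classical
  -- exceptional sets
  let exc : Fin w → Finset V := fun j => univ.filter (fun v => β j < u j v)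
  have hexc : ∀ j, (exc j).card ≤ r := fun j => (h j).few
  have hnot : ∀ j v, v ∉ exc j → u j v = β j := by
    intro j v hv
    simp only [exc, Finset.mem_filter, Finset.mem_univ, true_and, not_lt] at hv
    exact le_antisymm hv ((h j).base v)
  let U : Finset V := univ.biUnion exc
  have hU : U.card ≤ W * r := by
    refine Finset.card_biUnion_le.trans ?_
    calc ∑ j : Fin w, (exc j).card ≤ ∑ _j : Fin w, r := Finset.sum_le_sum (fun j _ => hexc j)
      _ = w * r := by rw [Finset.sum_const, Finset.card_univ, Fintype.card_fin, smul_eq_mul]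
      _ ≤ W * r := Nat.mul_le_mul_right _ hw
  let F : Finset P := ((U ×ˢ U).filter (fun q => q.1 ≠ q.2)).biUnion
    (fun q => univ.filter (fun p => q.1 ∈ sp p ∧ q.2 ∈ sp p))
  refine ⟨F, ?_, fun v => hφ (fun j => (h j).base v), ?_, ?_, ?_⟩
  · refine Finset.card_biUnion_le.trans ?_
    calc _ ≤ ∑ _q ∈ (U ×ˢ U).filter (fun q => q.1 ≠ q.2), 1 :=
          Finset.sum_le_sum (fun q hq => hlin _ _ (Finset.mem_filter.mp hq).2)
      _ = ((U ×ˢ U).filter (fun q => q.1 ≠ q.2)).card := by simp
      _ ≤ (U ×ˢ U).card := Finset.card_filter_le _ _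
      _ = U.card * U.card := Finset.card_product _ _
      _ ≤ (W * r) * (W * r) := Nat.mul_le_mul hU hU
      _ = (W * r) ^ 2 := by ring
  · refine (Finset.card_le_card ?_).trans hU
    intro v hv
    rw [Finset.mem_filter] at hv
    rw [Finset.mem_biUnion]
    by_contra hcon
    push Not at hcon
    have : (fun j => u j v) = β := by
      funext j
      exact hnot j v (hcon j (mem_univ _))
    rw [this] at hv
    exact absurd hv.2 (lt_irrefl _)
  · intro p hp
    rw [Finset.mem_union, not_or] at hp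
    choose v hv hfv using fun j => (h j).pos p hp.1
    obtain ⟨v0, hv0, hall⟩ : ∃ v0 ∈ sp p, ∀ j, v j ∈ exc j → v j = v0 := by
      by_cases hex : ∃ j, v j ∈ exc j
      · obtain ⟨j0, hj0⟩ := hex
        refine ⟨v j0, hv j0, fun j hj => ?_⟩
        by_contra hvv
        apply hp.2
        rw [Finset.mem_biUnion]
        refine ⟨(v j, v j0), ?_, ?_⟩
        · rw [Finset.mem_filter, Finset.mem_product]
          exact ⟨⟨Finset.mem_biUnion.mpr ⟨j, mem_univ _, hj⟩,
            Finset.mem_biUnion.mpr ⟨j0, mem_univ _, hj0⟩⟩, hvv⟩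
        · rw [Finset.mem_filter]
          exact ⟨mem_univ _, hv j, hv j0⟩
      · push Not at hex
        obtain ⟨v0, hv0⟩ := hne p
        exact ⟨v0, hv0, fun j hj => absurd hj (hex j)⟩
    refine ⟨v0, hv0, hφ (fun j => ?_)⟩
    refine (hfv j).trans ?_
    by_cases hj : v j ∈ exc j
    · rw [hall j hj]
    · rw [hnot j _ hj]
      exact (h j).base v0
  · intro n hn
    exact ⟨hφ (fun j => ((h j).neg n hn).1), fun v hv => hφ (fun j => ((h j).neg n hn).2 v hv)⟩

/-- the maximum of two functions -/
lemma supL {r : ℕ} {sp : P → Finset V} {sn : N → Finset V} {E : Finset P} {E' : Finset N}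
    {f g : Set V → ℝ} {β β' : ℝ} {u u' : V → ℝ} (hf : ApL r sp sn E E' f β u)
    (hg : ApL r sp sn E E' g β' u') :
    ApL (2 * r) sp sn E E' (fun x => max (f x) (g x)) (max β β') (fun v => max (u v) (u' v)) := by
  classical
  refine ⟨fun v => max_le_max (hf.base v) (hg.base v), ?_, ?_, ?_⟩
  · have hsub : (univ.filter (fun v => max β β' < max (u v) (u' v))) ⊆
        (univ.filter (fun v => β < u v)) ∪ (univ.filter (fun v => β' < u' v)) := by
      intro v hv
      rw [Finset.mem_filter] at hv
      rcases lt_max_iff.mp hv.2 with h | h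
      · exact Finset.mem_union_left _ (Finset.mem_filter.mpr
          ⟨mem_univ _, (le_max_left _ _).trans_lt h⟩)
      · exact Finset.mem_union_right _ (Finset.mem_filter.mpr
          ⟨mem_univ _, (le_max_right _ _).trans_lt h⟩)
    have h1 := hf.few
    have h2 := hg.few
    refine (Finset.card_le_card hsub).trans ((Finset.card_union_le _ _).trans ?_)
    omega
  · intro p hp
    obtain ⟨v, hv, h1⟩ := hf.pos p hp
    obtain ⟨v', hv', h2⟩ := hg.pos p hp
    rcases le_total (g (sp p : Set V)) (f (sp p : Set V)) with h | h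
    · exact ⟨v, hv, by rw [max_eq_left h]; exact h1.trans (le_max_left _ _)⟩
    · exact ⟨v', hv', by rw [max_eq_right h]; exact h2.trans (le_max_right _ _)⟩
  · intro n hn
    obtain ⟨h1, h2⟩ := hf.neg n hn
    obtain ⟨h3, h4⟩ := hg.neg n hn
    exact ⟨max_le_max h1 h3, fun v hv => max_le_max (h2 v hv) (h4 v hv)⟩

/-- approximation of programs -/
theorem apM_prog {r D W : ℕ} {sp : P → Finset V} {sn : N → Finset V}
    (hne : ∀ p, (sp p).Nonempty)
    (hlin : ∀ v v', v ≠ v' → (univ.filter (fun p => v ∈ sp p ∧ v' ∈ sp p)).card ≤ 1)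
    (hmiss : ∀ T : Finset V, r < T.card →
      (univ.filter (fun n => Disjoint (sn n) T)).card ≤ D)
    {B : Set (Set V → ℝ)} (hB : ∀ b ∈ B, ∃ β u, ApL r sp sn ∅ ∅ b β u)
    {c : ℕ} {L : List (Set V → ℝ)} (hL : MProg W B c L) :
    ∃ (E : Finset P) (E' : Finset N), E.card ≤ c * (W * r) ^ 2 ∧ E'.card ≤ L.length * D ∧
      ∀ f, (f ∈ B ∨ f ∈ L) → ∃ β u, ApL r sp sn E E' f β u := by
  classical
  induction hL with
  | nil =>
    refine ⟨∅, ∅, by simp, by simp, fun f hf => ?_⟩
    rcases hf with hf | hf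
    · exact hB f hf
    · simp at hf
  | @gate c L w hw φ hφ f hL hf ih =>
    obtain ⟨E, E', hE, hE', hap⟩ := ih
    choose β u hβu using fun j => hap (f j) (hf j)
    obtain ⟨F, hF, hg⟩ := gateW hne hlin hw hφ β u hβu
    obtain ⟨F', β', u', hF', hg'⟩ := hg.trim hmiss
    refine ⟨E ∪ F, E' ∪ F', ?_, ?_, ?_⟩
    · rw [Nat.add_mul, Nat.one_mul]
      exact (Finset.card_union_le _ _).trans (Nat.add_le_add hE hF)
    · rw [List.length_cons, Nat.add_mul, Nat.one_mul]
      exact (Finset.card_union_le _ _).trans (Nat.add_le_add hE' hF')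
    · intro g hgm
      rcases hgm with hgB | hgL
      · obtain ⟨b, v, hbv⟩ := hap g (Or.inl hgB)
        exact ⟨b, v, hbv.mono Finset.subset_union_left Finset.subset_union_left⟩
      · rcases List.mem_cons.mp hgL with rfl | hgL
        · exact ⟨β', u', hg'⟩
        · obtain ⟨b, v, hbv⟩ := hap g (Or.inr hgL)
          exact ⟨b, v, hbv.mono Finset.subset_union_left Finset.subset_union_left⟩
  | @sup c L f g hL hf hg ih =>
    obtain ⟨E, E', hE, hE', hap⟩ := ih
    obtain ⟨β, u, hβu⟩ := hap f hf
    obtain ⟨β1, u1, hβu1⟩ := hap g hg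
    obtain ⟨F', β', u', hF', hg'⟩ := (supL hβu hβu1).trim hmiss
    refine ⟨E, E' ∪ F', hE, ?_, ?_⟩
    · rw [List.length_cons, Nat.add_mul, Nat.one_mul]
      exact (Finset.card_union_le _ _).trans (Nat.add_le_add hE' hF')
    · intro g hgm
      rcases hgm with hgB | hgL
      · obtain ⟨b, v, hbv⟩ := hap g (Or.inl hgB)
        exact ⟨b, v, hbv.mono (Finset.Subset.refl _) Finset.subset_union_left⟩
      · rcases List.mem_cons.mp hgL with rfl | hgL
        · exact ⟨β', u', hg'⟩
        · obtain ⟨b, v, hbv⟩ := hap g (Or.inr hgL)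
          exact ⟨b, v, hbv.mono (Finset.Subset.refl _) Finset.subset_union_left⟩

/-- The acceptance probabilities. -/
theorem linM_hard {r D Dg W : ℕ} {sp : P → Finset V} {sn : N → Finset V}
    (hne : ∀ p, (sp p).Nonempty)
    (hlin : ∀ v v', v ≠ v' → (univ.filter (fun p => v ∈ sp p ∧ v' ∈ sp p)).card ≤ 1)
    (hdeg : ∀ v, (univ.filter (fun p => v ∈ sp p)).card ≤ Dg)
    (hmiss : ∀ T : Finset V, r < T.card →
      (univ.filter (fun n => Disjoint (sn n) T)).card ≤ D)
    {B : Set (Set V → ℝ)} (hB : ∀ b ∈ B, ∃ β u, ApL r sp sn ∅ ∅ b β u)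
    {c : ℕ} {L : List (Set V → ℝ)} (hL : MProg W B c L) (g : Set V → ℝ) (hg : g ∈ B ∨ g ∈ L)
    (τ : ℝ) :
    (univ.filter (fun p => τ ≤ g (sp p : Set V))).card * Fintype.card N ≤
      (univ.filter (fun n => τ ≤ g (sn n : Set V))).card * Fintype.card P +
      ((c * (W * r) ^ 2 + r * Dg) * Fintype.card N + L.length * D * Fintype.card P) := by
  classical
  obtain ⟨E, E', hE, hE', hap⟩ := apM_prog hne hlin hmiss hB hL
  obtain ⟨β, u, h⟩ := hap g hg
  by_cases hβ : τ ≤ β
  · -- most negative tests are accepted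
    have h1 : univ ⊆ E' ∪ univ.filter (fun n => τ ≤ g (sn n : Set V)) := by
      intro n _
      by_cases hn : n ∈ E'
      · exact Finset.mem_union_left _ hn
      · exact Finset.mem_union_right _ (Finset.mem_filter.mpr ⟨mem_univ _,
          hβ.trans (h.neg n hn).1⟩)
    have h2 := (Finset.card_le_card h1).trans (Finset.card_union_le _ _)
    rw [Finset.card_univ] at h2
    have h3 : (univ.filter (fun p => τ ≤ g (sp p : Set V))).card ≤ Fintype.card P := by
      rw [← Finset.card_univ]; exact Finset.card_filter_le _ _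
    calc _ ≤ Fintype.card P * Fintype.card N := Nat.mul_le_mul_right _ h3
      _ ≤ Fintype.card P * (L.length * D + (univ.filter (fun n => τ ≤ g (sn n : Set V))).card) :=
          Nat.mul_le_mul_left _ (h2.trans (Nat.add_le_add_right hE' _))
      _ = (univ.filter (fun n => τ ≤ g (sn n : Set V))).card * Fintype.card P +
          L.length * D * Fintype.card P := by ring
      _ ≤ _ := by
          apply Nat.add_le_add_left
          exact Nat.le_add_left _ _
  · -- few positive tests are accepted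
    rw [not_le] at hβ
    have h1 : univ.filter (fun p => τ ≤ g (sp p : Set V)) ⊆
        E ∪ (univ.filter (fun v => β < u v)).biUnion (fun v => univ.filter (fun p => v ∈ sp p)) := by
      intro p hp
      rw [Finset.mem_filter] at hp
      by_cases hpE : p ∈ E
      · exact Finset.mem_union_left _ hpE
      · obtain ⟨v, hv, hgv⟩ := h.pos p hpE
        refine Finset.mem_union_right _ (Finset.mem_biUnion.mpr ⟨v, ?_, ?_⟩)
        · exact Finset.mem_filter.mpr ⟨mem_univ _, hβ.trans_le (hp.2.trans hgv)⟩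
        · exact Finset.mem_filter.mpr ⟨mem_univ _, hv⟩
    have h2 : (univ.filter (fun p => τ ≤ g (sp p : Set V))).card ≤ c * (W * r) ^ 2 + r * Dg := by
      refine (Finset.card_le_card h1).trans ((Finset.card_union_le _ _).trans ?_)
      refine Nat.add_le_add hE (Finset.card_biUnion_le.trans ?_)
      calc _ ≤ ∑ _v ∈ univ.filter (fun v => β < u v), Dg := Finset.sum_le_sum (fun v _ => hdeg v)
        _ = (univ.filter (fun v => β < u v)).card * Dg := by
            rw [Finset.sum_const, smul_eq_mul]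
        _ ≤ r * Dg := Nat.mul_le_mul_right _ h.few
    calc _ ≤ (c * (W * r) ^ 2 + r * Dg) * Fintype.card N := Nat.mul_le_mul_right _ h2
      _ ≤ (c * (W * r) ^ 2 + r * Dg) * Fintype.card N + L.length * D * Fintype.card P :=
          Nat.le_add_right _ _
      _ ≤ _ := Nat.le_add_left _ _

end lin

end Pool.Agent.L7h66.MG
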