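import Pool.Agent.L7h66.MG.Block
import Pool.Agent.H559R9.Tri

/-! Many blocks in a graph with few edges. -/

set_option linter.unusedSectionVars false
set_option linter.unusedVariables false

namespace Pool.Agent.L7h66.MG

open Finset Pool.Agent.H560R2 Pool.Agent.H559R9

variable {n q P : ℕ}

/-- the pair of vertices of an element of a block -/
def pr (D : Design n 3 q P) (z : Fin P × Ve q) : Sym2 (Fin n) :=
  s(D.pt z.1 (lo z.2.1, z.2.2.1), D.pt z.1 (hi z.2.1, z.2.2.2))

lemma pr_inj (D : Design n 3 q P) : Function.Injective (pr D) := by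
  rintro ⟨p, i, a, b⟩ ⟨p', i', a', b'⟩ h
  have h' : s(D.pt p (lo i, a), D.pt p (hi i, b)) = s(D.pt p' (lo i', a'), D.pt p' (hi i', b')) := h
  have hcol : ∀ p x, D.col (D.pt p x) = x.1 := D.hcol
  have key : i = i' ∧ D.pt p (lo i, a) = D.pt p' (lo i, a') ∧
      D.pt p (hi i, b) = D.pt p' (hi i, b') := by
    rcases Sym2.eq_iff.mp h' with ⟨h1, h2⟩ | ⟨h1, h2⟩
    · have e1 := congrArg D.col h1
      have e2 := congrArg D.col h2
      rw [hcol, hcol] at e1 e2
      have hi' : i = i' := lo_hi_inj i i' e1 e2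
      subst hi'
      exact ⟨rfl, h1, h2⟩
    · have e1 := congrArg D.col h1
      have e2 := congrArg D.col h2
      rw [hcol, hcol] at e1 e2
      exact absurd (lo_hi_swap i i' e1 e2) id
  obtain ⟨rfl, h1, h2⟩ := key
  have hp : p = p' := (D.tri p p' p' (lo i, a) (hi i, b) (hi i, b') (thd i, b) (thd i, b)
    (lo i, a') h2 rfl h1.symm (lo_ne_hi i) (hi_ne_thd i) (lo_ne_thd i).symm).1
  subst hp
  have e1 := congrArg Prod.snd (D.inj p h1)
  have e2 := congrArg Prod.snd (D.inj p h2)
  simp only at e1 e2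
  rw [e1, e2]

open Classical in
/-- the element of a block that belongs to a pair of vertices -/
noncomputable def loc (D : Design n 3 q P) (e : Sym2 (Fin n)) : Option (Fin P × Ve q) :=
  if h : ∃ z, pr D z = e then some h.choose else none

lemma loc_eq_some (D : Design n 3 q P) (e : Sym2 (Fin n)) (z : Fin P × Ve q) :
    loc D e = some z ↔ pr D z = e := by
  classical
  unfold loc
  constructor
  · intro h
    split_ifs at h with h1
    · rw [← Option.some_injective _ h]
      exact h1.choose_spec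
  · intro h
    have h1 : ∃ z, pr D z = e := ⟨z, h⟩
    rw [dif_pos h1]
    congr 1
    exact pr_inj D (h1.choose_spec.trans h.symm)

/-- the graph of an input -/
def gr (D : Design n 3 q P) (y : Fin P → Set (Ve q)) : SimpleGraph (Fin n) where
  Adj u v := ∃ z : Fin P × Ve q, z.2 ∈ y z.1 ∧ pr D z = s(u, v)
  symm := ⟨by
    rintro u v ⟨z, h1, h2⟩
    exact ⟨z, h1, by rw [h2, Sym2.eq_swap]⟩⟩
  loopless := ⟨by
    rintro u ⟨⟨p, i, a, b⟩, h1, h2⟩
    have h3 : D.pt p (lo i, a) = D.pt p (hi i, b) := by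
      rcases Sym2.eq_iff.mp h2 with ⟨h3, h4⟩ | ⟨h3, h4⟩
      · exact h3.trans h4.symm
      · exact h3.trans h4.symm
    exact lo_ne_hi i (congrArg Prod.fst (D.inj p h3))⟩

open Classical in
lemma gr_input (D : Design n 3 q P) (y : Fin P → Set (Ve q)) :
    Es (loc D) y = fun e => decide (e ∈ (gr D y).edgeSet) := by
  funext e
  rw [Bool.eq_iff_iff, decide_eq_true_eq]
  induction e using Sym2.ind with
  | _ u v =>
    rw [SimpleGraph.mem_edgeSet]
    show _ ↔ ∃ z : Fin P × Ve q, z.2 ∈ y z.1 ∧ pr D z = s(u, v)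
    unfold Es
    rcases hl : loc D s(u, v) with _ | z
    · simp only [Bool.false_eq_true, false_iff]
      rintro ⟨z, _, h2⟩
      rw [(loc_eq_some D _ z).mpr h2] at hl
      exact absurd hl (by simp)
    · have hz := (loc_eq_some D _ z).mp hl
      simp only [decide_eq_true_eq]
      constructor
      · intro h1
        exact ⟨z, h1, hz⟩
      · rintro ⟨z', h2, h3⟩
        have : z = z' := pr_inj D (hz.trans h3.symm)
        rw [← this] at h2
        exact h2

/-- the graph has a triangle if and only if one of the blocks has one -/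
lemma gr_tri (D : Design n 3 q P) (y : Fin P → Set (Ve q)) :
    ¬ (gr D y).CliqueFree 3 ↔
      ∃ (p : Fin P) (x : Fin 3 → Fin q), ((tp x : Finset (Ve q)) : Set (Ve q)) ⊆ y p := by
  classical
  constructor
  · intro h
    unfold SimpleGraph.CliqueFree at h
    push Not at h
    obtain ⟨S, hS⟩ := h
    obtain ⟨u, v, w, h1, h2, h3, rfl⟩ := SimpleGraph.is3Clique_iff.mp hS
    -- the graph as a union
    let Y : Fin P → SimpleGraph (Fin 3 × Fin q) := fun p =>
      { Adj := fun a b => ∃ z : Ve q, z ∈ y p ∧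
          s(a, b) = s((lo z.1, z.2.1), (hi z.1, z.2.2))
        symm := ⟨by
          rintro a b ⟨z, hz, h⟩
          exact ⟨z, hz, by rw [← h, Sym2.eq_swap]⟩⟩
        loopless := ⟨by
          rintro a ⟨z, hz, h⟩
          rcases Sym2.eq_iff.mp h with ⟨e1, e2⟩ | ⟨e1, e2⟩
          · exact lo_ne_hi z.1 (congrArg Prod.fst (e1.symm.trans e2))
          · exact lo_ne_hi z.1 (congrArg Prod.fst (e2.symm.trans e1))⟩ }
    have hle : gr D y ≤ D.union Y := by
      rintro u v ⟨⟨p, z⟩, hz, h⟩
      rcases Sym2.eq_iff.mp h with ⟨e1, e2⟩ | ⟨e1, e2⟩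
      · exact ⟨p, (lo z.1, z.2.1), (hi z.1, z.2.2), e1, e2, lo_ne_hi _, z, hz, rfl⟩
      · exact ⟨p, (hi z.1, z.2.2), (lo z.1, z.2.1), e2, e1, (lo_ne_hi _).symm, z, hz,
          Sym2.eq_swap⟩
    have hcl : ¬ (D.union Y).CliqueFree 3 := by
      intro hf
      exact hf _ (SimpleGraph.is3Clique_triple_iff.2 ⟨hle h1, hle h2, hle h3⟩)
    obtain ⟨p, π, hπ⟩ := (D.clique_iff le_rfl Y).mp hcl
    refine ⟨p, π, fun z hz => ?_⟩
    rw [Finset.mem_coe, mem_tp] at hz
    have hlt : lo z.1 < hi z.1 := by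
      have : ∀ i : Fin 3, lo i < hi i := by decide
      exact this z.1
    obtain ⟨z', hz', h⟩ := hπ (lo z.1) (hi z.1) hlt
    have hzz : z = z' := by
      rcases Sym2.eq_iff.mp h with ⟨e1, e2⟩ | ⟨e1, e2⟩
      · have f1 := congrArg Prod.fst e1
        have f2 := congrArg Prod.fst e2
        have g1 := congrArg Prod.snd e1
        have g2 := congrArg Prod.snd e2
        simp only at f1 f2 g1 g2
        refine Prod.ext (lo_hi_inj _ _ f1 f2) (Prod.ext ?_ ?_)
        · rw [hz.1, g1]
        · rw [hz.2, g2]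
      · exact absurd (lo_hi_swap _ _ (congrArg Prod.fst e1) (congrArg Prod.fst e2)) id
    rw [hzz]
    exact hz'
  · rintro ⟨p, x, hx⟩
    unfold SimpleGraph.CliqueFree
    push Not
    have hadj : ∀ i : Fin 3, (gr D y).Adj (D.pt p (lo i, x (lo i))) (D.pt p (hi i, x (hi i))) := by
      intro i
      refine ⟨(p, (i, x (lo i), x (hi i))), hx ?_, rfl⟩
      rw [Finset.mem_coe, mem_tp]
      exact ⟨rfl, rfl⟩
    exact ⟨{D.pt p (0, x 0), D.pt p (1, x 1), D.pt p (2, x 2)},
      SimpleGraph.is3Clique_triple_iff.2 ⟨hadj 0, hadj 2, hadj 1⟩⟩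

/-- the number of edges -/
lemma gr_card {N' : ℕ} (D : Design N' 3 q P) (h : N' ≤ n) (hk : 0 < 3)
    (y : Fin P → Set (Ve q)) : (gr (D.lift h hk) y).edgeSet.ncard ≤ N' ^ 2 := by
  classical
  have hsub : (gr (D.lift h hk) y).edgeSet ⊆
      (((univ : Finset (Fin N' × Fin N')).image
        (fun z => s(Fin.castLE h z.1, Fin.castLE h z.2)) : Finset (Sym2 (Fin n))) :
          Set (Sym2 (Fin n))) := by
    intro e he
    induction e using Sym2.ind with
    | _ u v =>
      rw [SimpleGraph.mem_edgeSet] at he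
      obtain ⟨z, hz, h1⟩ := he
      rw [Finset.mem_coe, mem_image]
      exact ⟨(D.pt z.1 (lo z.2.1, z.2.2.1), D.pt z.1 (hi z.2.1, z.2.2.2)), mem_univ _, h1⟩
  refine (Set.ncard_le_ncard hsub (Finset.finite_toSet _)).trans ?_
  rw [Set.ncard_coe_finset]
  refine card_image_le.trans ?_
  simp [sq]

end Pool.Agent.L7h66.MG
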