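import Pool.Agent.L7h66.MG.Chain

/-! One block: triangles in a tripartite graph against random bipartite graphs. -/

set_option linter.unusedSectionVars false
set_option linter.unusedVariables false

namespace Pool.Agent.L7h66.MG

open Finset Pool.Agent.H560R2

/-- The classes of the end points of the edges of the kind `i`. -/
def lo (i : Fin 3) : Fin 3 := if i = 1 then 1 else 0

/-- The classes of the end points of the edges of the kind `i`. -/
def hi (i : Fin 3) : Fin 3 := if i = 0 then 1 else 2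

/-- The class without end points of edges of the kind `i`. -/
def thd (i : Fin 3) : Fin 3 := if i = 0 then 2 else if i = 1 then 0 else 1

lemma lo_ne_hi (i : Fin 3) : lo i ≠ hi i := by fin_cases i <;> decide
lemma lo_ne_thd (i : Fin 3) : lo i ≠ thd i := by fin_cases i <;> decide
lemma hi_ne_thd (i : Fin 3) : hi i ≠ thd i := by fin_cases i <;> decide
lemma lo_hi_inj : ∀ i i' : Fin 3, lo i = lo i' → hi i = hi i' → i = i' := by decide
lemma lo_hi_swap : ∀ i i' : Fin 3, lo i = hi i' → hi i = lo i' → False := by decide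
lemma class_cases : ∀ i j : Fin 3, j = lo i ∨ j = hi i ∨ j = thd i := by decide
lemma two_kinds : ∀ i i' j : Fin 3, i ≠ i' → j = lo i ∨ j = hi i ∨ j = lo i' ∨ j = hi i' := by
  decide

variable {q : ℕ}

/-- the pairs of a block -/
abbrev Ve (q : ℕ) : Type := Fin 3 × Fin q × Fin q

/-- triangles -/
def tp (x : Fin 3 → Fin q) : Finset (Ve q) :=
  univ.filter (fun v => v.2.1 = x (lo v.1) ∧ v.2.2 = x (hi v.1))

/-- bipartite graphs -/
def tn (ω : Fin 3 × Fin q → Bool) : Finset (Ve q) :=
  univ.filter (fun v => ω (lo v.1, v.2.1) ≠ ω (hi v.1, v.2.2))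

lemma mem_tp (x : Fin 3 → Fin q) (v : Ve q) :
    v ∈ tp x ↔ v.2.1 = x (lo v.1) ∧ v.2.2 = x (hi v.1) := by
  simp [tp]

lemma mem_tn (ω : Fin 3 × Fin q → Bool) (v : Ve q) :
    v ∈ tn ω ↔ ω (lo v.1, v.2.1) ≠ ω (hi v.1, v.2.2) := by
  simp [tn]

lemma tp_ne (x : Fin 3 → Fin q) : (tp x).Nonempty :=
  ⟨(0, x (lo 0), x (hi 0)), (mem_tp x _).mpr ⟨rfl, rfl⟩⟩

/-- bipartite graphs contain no triangle -/
lemma tn_free (ω : Fin 3 × Fin q → Bool) (x : Fin 3 → Fin q) : ¬ tp x ⊆ tn ω := by
  intro h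
  have h0 := (mem_tn ω _).mp (h ((mem_tp x (0, x (lo 0), x (hi 0))).mpr ⟨rfl, rfl⟩))
  have h1 := (mem_tn ω _).mp (h ((mem_tp x (1, x (lo 1), x (hi 1))).mpr ⟨rfl, rfl⟩))
  have h2 := (mem_tn ω _).mp (h ((mem_tp x (2, x (lo 2), x (hi 2))).mpr ⟨rfl, rfl⟩))
  simp only at h0 h1 h2
  have e1 : lo 1 = hi 0 := by decide
  have e2 : lo 2 = lo 0 := by decide
  have e3 : hi 2 = hi 1 := by decide
  rw [e1] at h1
  rw [e2, e3] at h2
  revert h0 h1 h2
  cases ω (lo 0, x (lo 0)) <;> cases ω (hi 0, x (hi 0)) <;> cases ω (hi 1, x (hi 1)) <;> simp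

lemma tp_lin (v v' : Ve q) (hne : v ≠ v') :
    (univ.filter (fun x : Fin 3 → Fin q => v ∈ tp x ∧ v' ∈ tp x)).card ≤ 1 := by
  rw [Finset.card_le_one]
  intro x hx y hy
  simp only [Finset.mem_filter, Finset.mem_univ, true_and, mem_tp] at hx hy
  have hk : v.1 ≠ v'.1 := by
    intro h
    apply hne
    refine Prod.ext h (Prod.ext ?_ ?_)
    · rw [hx.1.1, hx.2.1, h]
    · rw [hx.1.2, hx.2.2, h]
  funext j
  rcases two_kinds v.1 v'.1 j hk with h | h | h | h
  · rw [h, ← hx.1.1, ← hy.1.1]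
  · rw [h, ← hx.1.2, ← hy.1.2]
  · rw [h, ← hx.2.1, ← hy.2.1]
  · rw [h, ← hx.2.2, ← hy.2.2]

lemma tp_deg (v : Ve q) :
    (univ.filter (fun x : Fin 3 → Fin q => v ∈ tp x)).card ≤ q := by
  classical
  have : (univ.filter (fun x : Fin 3 → Fin q => v ∈ tp x)).card ≤
      (univ : Finset (Fin q)).card := by
    refine Finset.card_le_card_of_injOn (fun x => x (thd v.1)) (fun _ _ => by simp) ?_
    intro x hx y hy h
    simp only [Finset.coe_filter, Finset.mem_univ, true_and, mem_tp, Set.mem_ofPred_eq] at hx hy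
    funext j
    rcases class_cases v.1 j with h' | h' | h'
    · rw [h', ← hx.1, ← hy.1]
    · rw [h', ← hx.2, ← hy.2]
    · rw [h']
      exact h
  simpa using this

/-- Colourings that are equal at the points of `S` and at other points. -/
lemma count_eq {C : Type} [Fintype C] [DecidableEq C] (S : Finset C) (m : C → C)
    (hm : ∀ c ∈ S, m c ∉ S) :
    (univ.filter (fun ω : C → Bool => ∀ c ∈ S, ω c = ω (m c))).card ≤
      2 ^ (Fintype.card C - S.card) := by
  classical
  have h1 : (univ.filter (fun ω : C → Bool => ∀ c ∈ S, ω c = ω (m c))).card ≤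
      (univ : Finset ({c : C // c ∉ S} → Bool)).card := by
    refine Finset.card_le_card_of_injOn (fun ω c => ω c.1) (fun _ _ => by simp) ?_
    intro ω hω ω' hω' h
    simp only [Finset.coe_filter, Finset.mem_univ, true_and, Set.mem_ofPred_eq] at hω hω'
    have hout : ∀ c, c ∉ S → ω c = ω' c := fun c hc => congrFun h ⟨c, hc⟩
    funext c
    by_cases hc : c ∈ S
    · rw [hω c hc, hω' c hc]
      exact hout _ (hm c hc)
    · exact hout c hc
  refine h1.trans (le_of_eq ?_)
  rw [Finset.card_univ, Fintype.card_fun, Fintype.card_bool]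
  congr 1
  rw [Fintype.card_subtype_compl, Fintype.card_coe]

/-- bipartite graphs meet all large sets -/
lemma tn_hit (t : ℕ) (T : Finset (Ve q)) (hT : 3 * t ^ 2 < T.card) :
    (univ.filter (fun ω : Fin 3 × Fin q → Bool => Disjoint (tn ω) T)).card ≤
      2 ^ (3 * q - t) := by
  classical
  -- one kind
  obtain ⟨i, hi'⟩ : ∃ i : Fin 3, t ^ 2 < (T.filter (fun v => v.1 = i)).card := by
    by_contra hcon
    push Not at hcon
    have h1 : T.card = ∑ i : Fin 3, (T.filter (fun v => v.1 = i)).card :=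
      Finset.card_eq_sum_card_fiberwise (fun _ _ => Finset.mem_coe.mpr (mem_univ _))
    have h2 : ∑ i : Fin 3, (T.filter (fun v => v.1 = i)).card ≤ ∑ _i : Fin 3, t ^ 2 :=
      Finset.sum_le_sum (fun i _ => hcon i)
    rw [Finset.sum_const, Finset.card_univ, Fintype.card_fin, smul_eq_mul] at h2
    omega
  set Ti := T.filter (fun v => v.1 = i) with hTi
  let A := Ti.image (fun v => v.2.1)
  let B := Ti.image (fun v => v.2.2)
  have hAB : Ti.card ≤ A.card * B.card := by
    rw [← Finset.card_product]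
    refine Finset.card_le_card_of_injOn (fun v => v.2) ?_ ?_
    · intro v hv
      rw [Finset.mem_coe, Finset.mem_product]
      exact ⟨Finset.mem_image_of_mem _ hv, Finset.mem_image_of_mem _ hv⟩
    · intro v hv v' hv' h
      have e1 : v.1 = i := (Finset.mem_filter.mp (Finset.mem_coe.mp hv)).2
      have e2 : v'.1 = i := (Finset.mem_filter.mp (Finset.mem_coe.mp hv')).2
      exact Prod.ext (e1.trans e2.symm) h
  have hdis : ∀ ω : Fin 3 × Fin q → Bool, Disjoint (tn ω) T →
      ∀ v ∈ Ti, ω (lo i, v.2.1) = ω (hi i, v.2.2) := by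
    intro ω hω v hv
    have h1 := Finset.mem_filter.mp hv
    by_contra hcon
    have h2 : v ∈ tn ω := by
      rw [mem_tn, h1.2]
      exact hcon
    exact Finset.disjoint_left.mp hω h2 h1.1
  have hcard : Fintype.card (Fin 3 × Fin q) = 3 * q := by simp
  rcases Nat.lt_or_ge t A.card with hA | hA
  · -- many first points
    choose! f hf using fun a (ha : a ∈ A) => Finset.mem_image.mp ha
    let S : Finset (Fin 3 × Fin q) := A.image (fun a => (lo i, a))
    have hS : S.card = A.card := by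
      apply Finset.card_image_of_injective
      intro a a' h
      exact congrArg Prod.snd h
    have h1 := count_eq S (fun c => (hi i, (f c.2).2.2)) (by
      intro c hc h
      obtain ⟨a, ha, hca⟩ := Finset.mem_image.mp h
      exact lo_ne_hi i (congrArg Prod.fst hca))
    refine le_trans (Finset.card_le_card ?_) (h1.trans ?_)
    · intro ω hω
      rw [Finset.mem_filter] at hω ⊢
      refine ⟨mem_univ _, fun c hc => ?_⟩
      obtain ⟨a, ha, rfl⟩ := Finset.mem_image.mp hc
      have h3 := hdis ω hω.2 (f a) (hf a ha).1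
      rw [(hf a ha).2] at h3
      exact h3
    · rw [hcard, hS]
      exact Nat.pow_le_pow_right (by norm_num) (by omega)
  · -- many second points
    have hB : t < B.card := by
      by_contra hcon
      rw [not_lt] at hcon
      have : A.card * B.card ≤ t * t := Nat.mul_le_mul hA hcon
      rw [sq] at hi'
      omega
    choose! f hf using fun b (hb : b ∈ B) => Finset.mem_image.mp hb
    let S : Finset (Fin 3 × Fin q) := B.image (fun b => (hi i, b))
    have hS : S.card = B.card := by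
      apply Finset.card_image_of_injective
      intro a a' h
      exact congrArg Prod.snd h
    have h1 := count_eq S (fun c => (lo i, (f c.2).2.1)) (by
      intro c hc h
      obtain ⟨a, ha, hca⟩ := Finset.mem_image.mp h
      exact lo_ne_hi i (congrArg Prod.fst hca).symm)
    refine le_trans (Finset.card_le_card ?_) (h1.trans ?_)
    · intro ω hω
      rw [Finset.mem_filter] at hω ⊢
      refine ⟨mem_univ _, fun c hc => ?_⟩
      obtain ⟨b, hb, rfl⟩ := Finset.mem_image.mp hc
      have h3 := hdis ω hω.2 (f b) (hf b hb).1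
      rw [(hf b hb).2] at h3
      exact h3.symm
    · rw [hcard, hS]
      exact Nat.pow_le_pow_right (by norm_num) (by omega)

/-- One block is hard. -/
theorem tri_block (W K S t : ℕ) (hq : 0 < q) (ht : 1 ≤ t) (htq : t ≤ 3 * q) :
    BlockHardM W K S ((K * (W * (3 * t ^ 2)) ^ 2 + 3 * t ^ 2 * q) / (q : ℝ) ^ 3 + S / 2 ^ t)
      (tp : (Fin 3 → Fin q) → Finset (Ve q)) tn := by
  classical
  intro B hB c L hL hc hS g hg τ
  have hmain := linM_hard (r := 3 * t ^ 2) (D := 2 ^ (3 * q - t)) (Dg := q) (W := W)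
    (sp := (tp : (Fin 3 → Fin q) → Finset (Ve q)))
    (sn := (tn : (Fin 3 × Fin q → Bool) → Finset (Ve q))) tp_ne tp_lin tp_deg
    (fun T hT => tn_hit t T hT) (B := B) (by
      intro b hb
      rcases hB b hb with ⟨c, rfl⟩ | ⟨v, c, d, hcd, h1, h0⟩
      · exact apL_const _ _ tp_ne c
      · exact apL_var (by nlinarith) _ _ tp_ne v b c d hcd h1 h0) hL g hg τ
  have hcP : Fintype.card (Fin 3 → Fin q) = q ^ 3 := by
    rw [Fintype.card_fun, Fintype.card_fin, Fintype.card_fin]
  have hcN : Fintype.card (Fin 3 × Fin q → Bool) = 2 ^ (3 * q) := by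
    rw [Fintype.card_fun, Fintype.card_bool, Fintype.card_prod, Fintype.card_fin, Fintype.card_fin]
  rw [hcP, hcN] at hmain ⊢
  set A := (univ.filter (fun p : Fin 3 → Fin q => τ ≤ g ((tp p : Finset (Ve q)) : Set _))).card
  set A' := (univ.filter (fun n : Fin 3 × Fin q → Bool =>
    τ ≤ g ((tn n : Finset (Ve q)) : Set _))).card
  have hqR : (0 : ℝ) < q := by exact_mod_cast hq
  have h2 : (2 : ℝ) ^ (3 * q) = 2 ^ (3 * q - t) * 2 ^ t := by
    rw [← pow_add]
    congr 1
    omega
  have hm : (A : ℝ) * 2 ^ (3 * q) ≤ A' * (q : ℝ) ^ 3 +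
      ((c * (W * (3 * t ^ 2)) ^ 2 + 3 * t ^ 2 * q) * 2 ^ (3 * q) +
        L.length * 2 ^ (3 * q - t) * (q : ℝ) ^ 3) := by exact_mod_cast hmain
  have hcK : (c : ℝ) ≤ K := by exact_mod_cast hc
  have hLS : (L.length : ℝ) ≤ S := by exact_mod_cast hS
  have hm2 : (A : ℝ) * 2 ^ (3 * q) ≤ A' * (q : ℝ) ^ 3 +
      ((K * (W * (3 * t ^ 2)) ^ 2 + 3 * t ^ 2 * q) * 2 ^ (3 * q) +
        S * 2 ^ (3 * q - t) * (q : ℝ) ^ 3) := by
    refine hm.trans ?_
    gcongr
  push_cast
  rw [div_le_iff₀ (by positivity)]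
  have h3 : (A : ℝ) ≤ (A' * (q : ℝ) ^ 3 +
      ((K * (W * (3 * t ^ 2)) ^ 2 + 3 * t ^ 2 * q) * 2 ^ (3 * q) +
        S * 2 ^ (3 * q - t) * (q : ℝ) ^ 3)) / 2 ^ (3 * q) := by
    rw [le_div_iff₀ (by positivity)]
    exact hm2
  refine h3.trans (le_of_eq ?_)
  rw [h2]
  have h4 : (0 : ℝ) < 2 ^ (3 * q - t) := by positivity
  have h5 : (0 : ℝ) < 2 ^ t := by positivity
  field_simp

end Pool.Agent.L7h66.MG
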