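import Pool.Agent.L7h66.MG.Apx
import Pool.Agent.H560R2.Sum5

/-! The chain argument on average for real circuits with maxima. -/

set_option linter.unusedSectionVars false
set_option linter.unusedVariables false

namespace Pool.Agent.L7h66.MG

open Finset Pool.Agent.H560R2

section

variable {I V P N : Type} {M : ℕ}

open Classical in
/-- one block is hard on average -/
def BlockHardM [Fintype P] [Fintype N] (W K S : ℕ) (ε : ℝ) (sp : P → Finset V)
    (sn : N → Finset V) : Prop :=
  ∀ (B : Set (Set V → ℝ)),
    (∀ b ∈ B, (∃ c, b = fun _ => c) ∨ ∃ (v : V) (c d : ℝ), c ≤ d ∧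
      (∀ X, v ∈ X → b X = d) ∧ ∀ X, v ∉ X → b X = c) →
    ∀ c L, MProg W B c L → c ≤ K → L.length ≤ S → ∀ g, (g ∈ B ∨ g ∈ L) → ∀ τ : ℝ,
    ((univ.filter (fun p : P => τ ≤ g (sp p : Set V))).card : ℝ) / Fintype.card P ≤
      ((univ.filter (fun n : N => τ ≤ g (sn n : Set V))).card : ℝ) / Fintype.card N + ε

variable {s : ℕ} {T Mx : Finset (Fin s)} {w : Fin s → ℕ}
  {a : ∀ i, Fin (w i) → I ⊕ Fin s}
  {op : ∀ i, (Fin (w i) → ℝ) → ℝ} {θ : ∀ i, Fin (w i) → ℝ} {val : (I → Bool) → Fin s → ℝ}

open Classical in
/-- The chain argument on average for real circuits. -/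
theorem avg_chainM [Fintype P] [Nonempty P] [Fintype N] [Nonempty N] {W K S : ℕ} {ε : ℝ}
    {sp : P → Finset V} {sn : N → Finset V} (hA : BlockHardM W K S ε sp sn) (hM : 0 < M) (hW : 2 ≤ W)
    (loc : I → Option (Fin M × V))
    (htop : ∀ i j k, a i j = Sum.inr k → k < i)
    (hmon : ∀ i ∉ T, i ∉ Mx → w i ≤ W ∧ Monotone (op i))
    (hmax : ∀ i ∈ Mx, ∀ z, IsGreatest (Set.range z) (op i z))
    (hT : ∀ i ∈ T, ∀ z z' : Fin (w i) → ℝ, (∀ j, θ i j ≤ z j ↔ θ i j ≤ z' j) → op i z = op i z')
    (hval : ∀ x i, val x i = op i (fun j => Sum.elim (bit x) (val x) (a i j)))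
    (hK : cnt Mx s + ∑ i ∈ T, w i ≤ K) (hS : wir w s + ∑ i ∈ T, w i ≤ S) (o : Fin s) (τ : ℝ) :
    ((univ.filter (fun l : Fin M × (Fin M → N) × P =>
        τ ≤ val (yesD loc sp sn l) o)).card : ℝ) / Fintype.card (Fin M × (Fin M → N) × P) ≤
      ((univ.filter (fun l : Fin M × (Fin M → N) × P =>
        τ ≤ val (noD loc sn l) o)).card : ℝ) / Fintype.card (Fin M × (Fin M → N) × P) +
      ((∏ i ∈ T, (w i + 1) : ℕ) : ℝ) / M + ε := by
  have hmon' : ∀ i ∉ T, Monotone (op i) := by
    intro i hi
    by_cases hiM : i ∈ Mx
    · exact mono_of_greatest (hmax i hiM)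
    · exact (hmon i hi hiM).2
  set κ := ∏ i ∈ T, (w i + 1) with hκd
  set Nn : ℝ := (Fintype.card N : ℝ) with hN
  set Pp : ℝ := (Fintype.card P : ℝ) with hP
  have hNpos : 0 < Nn := by rw [hN]; exact_mod_cast Fintype.card_pos
  have hPpos : 0 < Pp := by rw [hP]; exact_mod_cast Fintype.card_pos
  have hMR : (0 : ℝ) < M := by exact_mod_cast hM
  set F : ℝ := (Fintype.card (Fin M → N) : ℝ) with hF
  have hFpos : 0 < F := by rw [hF]; exact_mod_cast Fintype.card_pos
  -- the probes
  let pr : (I → Bool) → (∀ t : Fin s, Fin (w t) → Prop) := fun x t j => t ∈ T ∧ prb a θ val x t j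
  have hprne : ∀ x x', pr x ≠ pr x' ↔
      ∃ i ∈ T, ∃ j, ¬ (prb a θ val x i j ↔ prb a θ val x' i j) := by
    intro x x'
    constructor
    · intro h
      by_contra hcon
      push Not at hcon
      apply h
      funext t j
      simp only [pr]
      by_cases ht : t ∈ T
      · have := hcon t ht j
        simp only [ht, true_and]
        exact propext (by tauto)
      · simp only [ht, false_and]
    · rintro ⟨i, hi, j, h⟩ heq
      have := congrFun (congrFun heq i) j
      simp only [pr, hi, true_and] at this
      exact h (by rw [this])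
  let b : Fin M → (Fin M → N) → ℝ := fun i y => ((univ.filter (fun p : P =>
    τ ≤ val (Es loc (Function.update (stS sn y i) i (sp p : Set V))) o)).card : ℝ)
  let av : Fin M → (Fin M → N) → ℝ := fun i y => if τ ≤ val (Es loc (stS sn y (i + 1))) o then 1 else 0
  let ch : Fin M → (Fin M → N) → ℝ := fun i y =>
    if pr (Es loc (stS sn y i)) ≠ pr (Es loc (stS sn y (i + 1))) then 1 else 0
  have hav0 : ∀ i y, 0 ≤ av i y := by
    intro i y; simp only [av]; split_ifs <;> norm_num
  have hch0 : ∀ i y, 0 ≤ ch i y := by
    intro i y; simp only [ch]; split_ifs <;> norm_num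
  have hstep : ∀ i y, b i y * Nn ≤
      (∑ ω : N, (av i (Function.update y i ω) + ch i (Function.update y i ω))) * Pp +
        ε * (Pp * Nn) := by
    intro i y
    have hle : ∀ X : Set V, Es loc (stS sn y i) ≤ Es loc (Function.update (stS sn y i) i X) := by
      intro X
      apply Es_mono
      intro j
      by_cases hj : j = i
      · subst hj
        rw [stS_self]
        exact Set.empty_subset _
      · rw [Function.update_of_ne hj]
    obtain ⟨c, L, G, hL, hc, hlen, hG, hGx⟩ := flipM hW htop hmon hmax hT hval o τ (Es loc (stS sn y i))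
    have h1 := hA {h | ∃ b ∈ RB I, h = fun X => b (Es loc (Function.update (stS sn y i) i X))}
      (by
        rintro _ ⟨b', hb', rfl⟩
        rcases Es_base loc (stS sn y i) i b' hb' with h | ⟨v, c, d, h1, h2, h3⟩
        · exact Or.inl h
        · exact Or.inr ⟨v, c, d, h1, h2, h3⟩)
      c _ (hL.comp (B' := {h | ∃ b ∈ RB I, h = fun X => b (Es loc (Function.update (stS sn y i) i X))})
          (fun X => Es loc (Function.update (stS sn y i) i X)) (fun b hb => ⟨b, hb, rfl⟩))
      (hc.trans hK) (by rw [List.length_map]; exact hlen.trans hS)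
      (fun X => G (Es loc (Function.update (stS sn y i) i X)))
      (by
        rcases hG with h | h
        · exact Or.inl ⟨G, h, rfl⟩
        · exact Or.inr (List.mem_map.mpr ⟨G, h, rfl⟩)) τ
    rw [div_le_iff₀ hPpos] at h1
    have h1' : ((univ.filter (fun p : P =>
        τ ≤ G (Es loc (Function.update (stS sn y i) i (sp p : Set V))))).card : ℝ) * Nn ≤
        ((univ.filter (fun n : N =>
          τ ≤ G (Es loc (Function.update (stS sn y i) i (sn n : Set V))))).card : ℝ) * Pp +
        ε * (Pp * Nn) := by
      calc _ ≤ ((((univ.filter (fun n : N =>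
          τ ≤ G (Es loc (Function.update (stS sn y i) i (sn n : Set V))))).card : ℝ) / Nn + ε) * Pp) *
            Nn := mul_le_mul_of_nonneg_right h1 hNpos.le
        _ = _ := by field_simp
    have hb : b i y ≤ ((univ.filter (fun p : P =>
        τ ≤ G (Es loc (Function.update (stS sn y i) i (sp p : Set V))))).card : ℝ) := by
      simp only [b]
      have : (univ.filter (fun p : P =>
          τ ≤ val (Es loc (Function.update (stS sn y i) i (sp p : Set V))) o)) ⊆
          (univ.filter (fun p : P =>
          τ ≤ G (Es loc (Function.update (stS sn y i) i (sp p : Set V))))) := by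
        intro p hp
        rw [Finset.mem_filter] at hp ⊢
        exact ⟨mem_univ _, (hGx _ (hle _)).mpr (Or.inr hp.2)⟩
      exact_mod_cast Finset.card_le_card this
    have hw : ((univ.filter (fun n : N =>
          τ ≤ G (Es loc (Function.update (stS sn y i) i (sn n : Set V))))).card : ℝ) ≤
        ∑ ω : N, (av i (Function.update y i ω) + ch i (Function.update y i ω)) := by
      rw [Finset.card_filter]
      push_cast
      apply Finset.sum_le_sum
      intro ω _
      have ha0 := hav0 i (Function.update y i ω)
      have hc0 := hch0 i (Function.update y i ω)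
      by_cases hgω : τ ≤ G (Es loc (Function.update (stS sn y i) i (sn ω : Set V)))
      · rw [if_pos hgω]
        rcases (hGx _ (hle _)).mp hgω with h | h
        · have : ch i (Function.update y i ω) = 1 := by
            simp only [ch]
            rw [if_pos]
            rw [stS_update, stS_succ]
            exact fun h' => (hprne _ _).mpr h h'.symm
          rw [this]
          linarith
        · have : av i (Function.update y i ω) = 1 := by
            simp only [av]
            rw [if_pos]
            rw [stS_succ]
            exact h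
          rw [this]
          linarith
      · rw [if_neg hgω]
        linarith
    calc b i y * Nn ≤ _ := mul_le_mul_of_nonneg_right hb hNpos.le
      _ ≤ _ := h1'
      _ ≤ _ := by
          have h2 := mul_le_mul_of_nonneg_right hw hPpos.le
          linarith
  have hsum : ∀ i, (∑ y, b i y) ≤ (∑ y, (av i y + ch i y)) * Pp + ε * (F * Pp) := by
    intro i
    have h1 : (∑ y, b i y) * Nn ≤
        (∑ y, ∑ ω : N, (av i (Function.update y i ω) + ch i (Function.update y i ω))) * Pp +
          F * (ε * (Pp * Nn)) := by
      have : F * (ε * (Pp * Nn)) = ∑ _y : Fin M → N, ε * (Pp * Nn) := by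
        rw [Finset.sum_const, Finset.card_univ, nsmul_eq_mul]
      rw [this, Finset.sum_mul, Finset.sum_mul, ← Finset.sum_add_distrib]
      exact Finset.sum_le_sum (fun y _ => hstep i y)
    have hsu : (∑ y : Fin M → N, ∑ ω : N, (av i (Function.update y i ω) +
        ch i (Function.update y i ω))) = Nn * ∑ y, (av i y + ch i y) := by
      rw [Finset.mul_sum]
      have key : ∀ f : (Fin M → N) → ℝ, ∑ y : Fin M → N, ∑ ω : N, f (Function.update y i ω) =
          ∑ y, Nn * f y := by
        intro f
        have e1 : ∑ y : Fin M → N, ∑ ω : N, f (Function.update y i ω) =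
            ∑ q : (Fin M → N) × N, f (Function.update q.1 i q.2) := by
          rw [Fintype.sum_prod_type]
        have e2 : ∑ y : Fin M → N, Nn * f y = ∑ q : (Fin M → N) × N, f q.1 := by
          rw [Fintype.sum_prod_type]
          apply Finset.sum_congr rfl
          intro y _
          show Nn * f y = ∑ _n : N, f y
          rw [Finset.sum_const, Finset.card_univ, nsmul_eq_mul]
        rw [e1, e2]
        refine Fintype.sum_bijective (fun q : (Fin M → N) × N => (Function.update q.1 i q.2, q.1 i))
          ?_ _ _ (fun q => rfl)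
        have hinv : Function.Involutive
            (fun q : (Fin M → N) × N => (Function.update q.1 i q.2, q.1 i)) := by
          intro q
          simp
        exact hinv.bijective
      exact key (fun y => av i y + ch i y)
    rw [hsu] at h1
    refine le_of_mul_le_mul_right ?_ hNpos
    calc (∑ y, b i y) * Nn ≤ _ := h1
      _ = _ := by ring
  have hall : (∑ i, ∑ y, b i y) ≤
      (∑ i, ∑ y, av i y) * Pp + (∑ i, ∑ y, ch i y) * Pp + M * (ε * (F * Pp)) := by
    refine (Finset.sum_le_sum (fun i _ => hsum i)).trans (le_of_eq ?_)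
    rw [Finset.sum_add_distrib, Finset.sum_const, Finset.card_univ, Fintype.card_fin, nsmul_eq_mul,
      ← Finset.sum_mul, ← add_mul, ← Finset.sum_add_distrib]
    simp only [Finset.sum_add_distrib]
  have hch : (∑ i, ∑ y, ch i y) ≤ F * (κ : ℝ) := by
    rw [Finset.sum_comm]
    have h1 : ∀ y : Fin M → N, ∑ i, ch i y ≤ (κ : ℝ) := by
      intro y
      have h2 := changes_rk (M := M) pr (fun x => rk T a θ val x s) κ
        (fun x x' hxx' => by
          rcases rk_monoM htop hmon' hT hval hxx' s le_rfl with h | h
          · exact h.le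
          · exact h.1.le)
        (fun x x' hxx' hne => by
          rcases rk_monoM htop hmon' hT hval hxx' s le_rfl with h | ⟨_, h, _⟩
          · exact h
          · exfalso
            obtain ⟨i, hi, j, hj⟩ := (hprne x x').mp hne
            exact hj (h i hi i.isLt j))
        (fun x => by
          have h3 := rk_lt (T := T) (a := a) (θ := θ) (val := val) x s le_rfl
          have hTf : T.filter (fun i => i.val < s) = T :=
            Finset.filter_true_of_mem (fun i _ => i.isLt)
          rw [hTf] at h3
          exact h3.le)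
        (fun i => Es loc (stS sn y i)) (fun i _ => Es_mono loc (stS_mono sn y i))
        ((Finset.range M).filter (fun i => pr (Es loc (stS sn y i)) ≠ pr (Es loc (stS sn y (i + 1)))))
        (fun i hi => by
          rw [Finset.mem_filter, Finset.mem_range] at hi
          exact hi)
      have h3 : ∑ i : Fin M, ch i y = (((Finset.range M).filter (fun i =>
          pr (Es loc (stS sn y i)) ≠ pr (Es loc (stS sn y (i + 1))))).card : ℝ) := by
        rw [Finset.card_filter, Finset.sum_range]
        push_cast
        rfl
      rw [h3]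
      exact_mod_cast h2
    calc ∑ y, ∑ i, ch i y ≤ ∑ _y : Fin M → N, (κ : ℝ) :=
          Finset.sum_le_sum (fun y _ => h1 y)
      _ = _ := by rw [Finset.sum_const, Finset.card_univ, nsmul_eq_mul]
  have e1 : (((univ.filter (fun l : Fin M × (Fin M → N) × P =>
        τ ≤ val (yesD loc sp sn l) o)).card : ℕ) : ℝ) = ∑ i : Fin M, ∑ y : Fin M → N, b i y := by
    rw [Finset.card_filter]
    push_cast
    rw [Fintype.sum_prod_type]
    apply Finset.sum_congr rfl
    intro i _
    rw [Fintype.sum_prod_type]
    apply Finset.sum_congr rfl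
    intro y _
    simp only [b]
    rw [Finset.card_filter]
    push_cast
    rfl
  have e2 : (((univ.filter (fun l : Fin M × (Fin M → N) × P =>
        τ ≤ val (noD loc sn l) o)).card : ℕ) : ℝ) =
      (∑ i : Fin M, ∑ y : Fin M → N, av i y) * Pp := by
    rw [Finset.card_filter]
    push_cast
    rw [Fintype.sum_prod_type, Finset.sum_mul]
    apply Finset.sum_congr rfl
    intro i _
    rw [Fintype.sum_prod_type, Finset.sum_mul]
    apply Finset.sum_congr rfl
    intro y _
    have : ∀ p : P, noD loc sn (i, y, p) = Es loc (stS sn y (i + 1)) := fun _ => rfl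
    simp only [this]
    rw [Finset.sum_const, Finset.card_univ, nsmul_eq_mul, mul_comm]
  have e3 : (Fintype.card (Fin M × (Fin M → N) × P) : ℝ) = M * (F * Pp) := by
    rw [Fintype.card_prod, Fintype.card_prod, Fintype.card_fin]
    push_cast
    rfl
  rw [e1, e2, e3]
  have hcard : 0 < (M : ℝ) * (F * Pp) := by positivity
  have h10 := mul_le_mul_of_nonneg_right hch hPpos.le
  rw [div_le_iff₀ hcard]
  have e4 : ((∑ i : Fin M, ∑ y : Fin M → N, av i y) * Pp / (M * (F * Pp)) + (κ : ℝ) / M + ε) *
      (M * (F * Pp)) = (∑ i : Fin M, ∑ y : Fin M → N, av i y) * Pp + (F * κ) * Pp +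
      M * (ε * (F * Pp)) := by
    field_simp
  rw [e4]
  linarith

end

end Pool.Agent.L7h66.MG
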