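import Pool.Agent.L7h66.MG.Asm

/-! The choice of the parameters. -/

set_option linter.unusedSectionVars false
set_option linter.unusedVariables false

namespace Pool.Agent.L7h66.MG

open Finset Filter Pool.Agent.H560R2 Pool.Agent.H559R9

/-- graphs with a triangle -/
noncomputable def yesG {n q P : ℕ} (D : Design n 3 q P)
    (l : Fin P × (Fin P → (Fin 3 × Fin q → Bool)) × (Fin 3 → Fin q)) : SimpleGraph (Fin n) :=
  gr D (Function.update (stS tn l.2.1 l.1) l.1 ((tp l.2.2 : Finset (Ve q)) : Set (Ve q)))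

/-- graphs without triangles -/
noncomputable def noG {n q P : ℕ} (D : Design n 3 q P)
    (l : Fin P × (Fin P → (Fin 3 × Fin q → Bool)) × (Fin 3 → Fin q)) : SimpleGraph (Fin n) :=
  gr D (stS tn l.2.1 (l.1 + 1))

lemma yesG_tri {n q P : ℕ} (D : Design n 3 q P)
    (l : Fin P × (Fin P → (Fin 3 × Fin q → Bool)) × (Fin 3 → Fin q)) :
    ¬ (yesG D l).CliqueFree 3 := by
  rw [yesG, gr_tri]
  exact ⟨l.1, l.2.2, by rw [Function.update_self]⟩

lemma noG_tri {n q P : ℕ} (D : Design n 3 q P)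
    (l : Fin P × (Fin P → (Fin 3 × Fin q → Bool)) × (Fin 3 → Fin q)) :
    (noG D l).CliqueFree 3 := by
  by_contra h
  rw [noG, gr_tri] at h
  obtain ⟨p, x, hx⟩ := h
  unfold stS at hx
  split_ifs at hx with hp
  · exact tn_free _ x (by exact_mod_cast hx)
  · obtain ⟨v, hv⟩ := tp_ne x
    exact hx (Finset.mem_coe.mpr hv)

lemma pow_le_two (C a b : ℝ) (hb : 0 < b) :
    ∀ᶠ N : ℕ in atTop, C * (N : ℝ) ^ a ≤ 2 ^ ((N : ℝ) ^ b) := by
  have hlog2 : 0 < Real.log 2 := Real.log_pos (by norm_num)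
  have h1 := isLittleO_rpow_exp_pos_mul_atTop (a / b) hlog2
  have hc : 0 < 1 / (|C| + 1) := by positivity
  have h2 := h1.bound hc
  have h3 : Tendsto (fun N : ℕ => (N : ℝ) ^ b) atTop atTop :=
    (tendsto_rpow_atTop hb).comp tendsto_natCast_atTop_atTop
  filter_upwards [h3.eventually h2, eventually_ge_atTop 1] with N hN hN1
  have hN0 : (0 : ℝ) < N := by exact_mod_cast hN1
  rw [← Real.rpow_mul hN0.le, mul_div_cancel₀ _ hb.ne', Real.norm_of_nonneg (by positivity),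
    Real.norm_of_nonneg (by positivity)] at hN
  have e : Real.exp (Real.log 2 * (N : ℝ) ^ b) = 2 ^ ((N : ℝ) ^ b) := by
    rw [Real.rpow_def_of_pos (by norm_num : (0 : ℝ) < 2)]
  rw [e] at hN
  have h4 : (0 : ℝ) ≤ (N : ℝ) ^ a := by positivity
  calc C * (N : ℝ) ^ a ≤ (|C| + 1) * (N : ℝ) ^ a := by
        apply mul_le_mul_of_nonneg_right _ h4
        linarith [le_abs_self C]
    _ ≤ (|C| + 1) * (1 / (|C| + 1) * 2 ^ ((N : ℝ) ^ b)) := by gcongr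
    _ = _ := by field_simp

lemma inv_pow_ge (C : ℝ) {a b : ℝ} (h : b < a) :
    ∀ᶠ N : ℕ in atTop, C * (N : ℝ) ^ (-a) ≤ (N : ℝ) ^ (-b) := by
  filter_upwards [rpow_ge C (sub_pos.mpr h), eventually_ge_atTop 1] with N h1 h2
  have hN0 : (0 : ℝ) < N := by exact_mod_cast h2
  calc C * (N : ℝ) ^ (-a) ≤ (N : ℝ) ^ (a - b) * (N : ℝ) ^ (-a) := by gcongr
    _ = _ := by
      rw [← Real.rpow_add hN0]
      congr 1
      ring

set_option maxHeartbeats 4000000 in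
open Classical in
/-- The main theorem. -/
theorem tri_real (γ θ : ℝ) (hγ : 0 ≤ γ) (hθ : 0 ≤ θ) (h : 2 / 3 * θ + γ < 1) :
    ∃ α : ℝ, 0 < α ∧ ∀ᶠ m : ℕ in atTop, ∀ n : ℕ, m ≤ n ^ 2 →
      ∃ (Λ : Type) (_ : Fintype Λ) (_ : Nonempty Λ) (yes no : Λ → SimpleGraph (Fin n)),
        (∀ l, (yes l).edgeSet.ncard ≤ m ∧ ¬ (yes l).CliqueFree 3) ∧
        (∀ l, (no l).edgeSet.ncard ≤ m ∧ (no l).CliqueFree 3) ∧
        ∀ (s : ℕ) (T Mx : Finset (Fin s)) (w : Fin s → ℕ)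
          (ar : ∀ i, Fin (w i) → Sym2 (Fin n) ⊕ Fin s)
          (op : ∀ i, (Fin (w i) → ℝ) → ℝ) (θ' : ∀ i, Fin (w i) → ℝ)
          (val : (Sym2 (Fin n) → Bool) → Fin s → ℝ) (o : Fin s) (τ : ℝ),
          (∀ i j k, ar i j = Sum.inr k → k < i) →
          (∀ i ∉ T, i ∉ Mx → Monotone (op i)) →
          (∀ i ∉ T, i ∉ Mx → (w i : ℝ) ≤ (m : ℝ) ^ α) →
          (∀ i ∈ Mx, ∀ z, IsGreatest (Set.range z) (op i z)) →
          (∀ i ∈ T, ∀ z z' : Fin (w i) → ℝ, (∀ j, θ' i j ≤ z j ↔ θ' i j ≤ z' j) →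
            op i z = op i z') →
          (∀ x i, val x i = op i (fun j => Sum.elim (bit x) (val x) (ar i j))) →
          (((univ.filter (fun i => i ∉ Mx)).card + ∑ i ∈ T, w i : ℕ) : ℝ) ≤ (m : ℝ) ^ θ →
          ((∑ i, w i : ℕ) : ℝ) ≤ 2 ^ ((m : ℝ) ^ α) →
          ((∏ i ∈ T, (w i + 1) : ℕ) : ℝ) ≤ (m : ℝ) ^ γ →
          ((univ.filter (fun l : Λ =>
              τ ≤ val (fun e => decide (e ∈ (yes l).edgeSet)) o)).card : ℝ) / Fintype.card Λ ≤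
            ((univ.filter (fun l : Λ =>
              τ ≤ val (fun e => decide (e ∈ (no l).edgeSet)) o)).card : ℝ) / Fintype.card Λ +
              (m : ℝ) ^ (-α) := by
  set η : ℝ := 1 - γ - 2 / 3 * θ with hη
  have hη0 : 0 < η := by
    rw [hη]
    linarith
  have hη1 : η ≤ 1 := by
    rw [hη]
    linarith
  set α : ℝ := η / 100 with hα
  have hα0 : 0 < α := by
    rw [hα]
    linarith
  refine ⟨α, hα0, ?_⟩
  have hsqrt : Tendsto Nat.sqrt atTop atTop := by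
    refine tendsto_atTop.2 (fun b => ?_)
    filter_upwards [eventually_ge_atTop (b * b)] with n hn
    exact Nat.le_sqrt.2 hn
  have hdes := design_exists (k := 3) (by norm_num) (γ := 2 * γ + η / 2) (θ := 2 / 3 * θ + η / 2)
    (by linarith) (by linarith) (by
      rw [hη]
      linarith)
  -- the conditions
  have e1 := rpow_ge 1 (show (0 : ℝ) < η / 20 by linarith)
  have e2 := inv_pow_ge (4 ^ θ * (2 * (3 * 4)) ^ 2 * 8 * 16)
    (show η / 50 < 63 / 50 * η by linarith)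
  have e3 := inv_pow_ge (48 * 16) (show η / 50 < 9 / 10 * η by linarith)
  have e4 := inv_pow_ge (4 ^ γ * 16) (show η / 50 < η / 2 by linarith)
  have e5 := pow_le_two (4 ^ θ) (2 * θ) (η / 50) (by linarith)
  have e6 := pow_le_two (4 * 16) (η / 50) (η / 50) (by linarith)
  have e7 := rpow_ge 4 (show (0 : ℝ) < 3 / 100 * η by linarith)
  filter_upwards [hsqrt.eventually hdes, hsqrt.eventually (eventually_ge_atTop 1),
    eventually_ge_atTop 1, rpow_ge 2 hα0, hsqrt.eventually e1, hsqrt.eventually e2,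
    hsqrt.eventually e3, hsqrt.eventually e4, hsqrt.eventually e5, hsqrt.eventually e6,
    hsqrt.eventually e7] with m hdm hs1 hm1 hW2 f1 f2 f3 f4 f5 f6 f7
  intro n hn
  obtain ⟨N, hN⟩ : ∃ N, N = Nat.sqrt m := ⟨_, rfl⟩
  rw [← hN] at hdm hs1 f1 f2 f3 f4 f5 f6 f7
  have hNn : N ≤ n := by
    have h1 : N * N ≤ m := by rw [hN]; exact Nat.sqrt_le m
    have h2 : N * N ≤ n * n := by
      rw [← sq n]
      exact h1.trans hn
    exact Nat.mul_self_le_mul_self_iff.1 h2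
  have hN0 : (0 : ℝ) < N := by exact_mod_cast hs1
  have hN1 : (1 : ℝ) ≤ N := by exact_mod_cast hs1
  have hm0 : (0 : ℝ) < m := by exact_mod_cast hm1
  have hmt : (m : ℝ) ≤ 4 * (N : ℝ) ^ 2 := by
    have h1 : m < (N + 1) * (N + 1) := by rw [hN]; exact Nat.lt_succ_sqrt m
    have h2 : (N + 1) * (N + 1) ≤ 4 * N ^ 2 := by nlinarith
    exact_mod_cast h1.le.trans h2
  have htm : N ^ 2 ≤ m := by
    rw [sq, hN]
    exact Nat.sqrt_le m
  have hpow : ∀ a : ℝ, 0 ≤ a → (m : ℝ) ^ a ≤ 4 ^ a * (N : ℝ) ^ (2 * a) := by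
    intro a ha
    calc (m : ℝ) ^ a ≤ (4 * (N : ℝ) ^ 2) ^ a := Real.rpow_le_rpow hm0.le hmt ha
      _ = 4 ^ a * (N : ℝ) ^ (2 * a) := by
          rw [Real.mul_rpow (by norm_num) (by positivity), Real.rpow_mul hN0.le, Real.rpow_two]
  have h4α : (4 : ℝ) ^ α ≤ 2 := by
    have : (2 : ℝ) = 4 ^ (1 / 2 : ℝ) := by
      rw [show (4 : ℝ) = 2 ^ (2 : ℝ) by norm_num, ← Real.rpow_mul (by norm_num)]
      norm_num
    rw [this]
    apply Real.rpow_le_rpow_of_exponent_le (by norm_num)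
    rw [hα]
    linarith
  have hmα : (m : ℝ) ^ α ≤ 2 * (N : ℝ) ^ (η / 50) := by
    refine (hpow α hα0.le).trans ?_
    have : 2 * α = η / 50 := by rw [hα]; ring
    rw [this]
    gcongr
  obtain ⟨P, hP, ⟨D0⟩⟩ := hdm
  obtain ⟨hb1, hb2⟩ := two_pow_floor hs1 (θ := 2 / 3 * θ + η / 2) (by linarith)
  obtain ⟨b, hb⟩ : ∃ b, b = ⌊(2 / 3 * θ + η / 2) * Real.logb 2 (N : ℝ)⌋₊ := ⟨_, rfl⟩
  rw [← hb] at D0 hb1 hb2
  obtain ⟨q, hq⟩ : ∃ q, q = 2 ^ b := ⟨_, rfl⟩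
  rw [← hq] at D0
  have hq0 : 0 < q := by rw [hq]; positivity
  have hqR : (0 : ℝ) < q := by exact_mod_cast hq0
  have hb2' : (N : ℝ) ^ (2 / 3 * θ + η / 2) ≤ 2 * q := by
    rw [hq]
    push_cast
    exact hb2
  have hP0 : 0 < P := by
    have h4 : (0 : ℝ) < P := lt_of_lt_of_le (by positivity) hP
    exact_mod_cast h4
  have hPR : (0 : ℝ) < P := by exact_mod_cast hP0
  let D := D0.lift hNn (by norm_num : 0 < 3)
  -- the size of the sets
  obtain ⟨t, ht⟩ : ∃ t, t = ⌈(N : ℝ) ^ (η / 20)⌉₊ := ⟨_, rfl⟩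
  have ht1 : (N : ℝ) ^ (η / 20) ≤ t := by rw [ht]; exact Nat.le_ceil _
  have ht2 : (t : ℝ) ≤ 2 * (N : ℝ) ^ (η / 20) := by
    have h5 := (Nat.ceil_lt_add_one (a := (N : ℝ) ^ (η / 20)) (by positivity)).le
    rw [← ht] at h5
    linarith
  have ht0 : 1 ≤ t := by
    have : (1 : ℝ) ≤ t := f1.trans ht1
    exact_mod_cast this
  have htq : t ≤ 3 * q := by
    by_contra hcon
    rw [not_le] at hcon
    have h5 : (3 : ℝ) * q < t := by exact_mod_cast hcon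
    have h6 : (N : ℝ) ^ (η / 20) ≤ (N : ℝ) ^ (2 / 3 * θ + η / 2) :=
      Real.rpow_le_rpow_of_exponent_le hN1 (by linarith)
    have h7 : (t : ℝ) < (N : ℝ) ^ (η / 20) + 1 := by
      rw [ht]
      exact Nat.ceil_lt_add_one (by positivity)
    have h8 : (1 : ℝ) ≤ q := by exact_mod_cast hq0
    linarith
  obtain ⟨W, hW⟩ : ∃ W, W = ⌊(m : ℝ) ^ α⌋₊ := ⟨_, rfl⟩
  have hW1 : (W : ℝ) ≤ (m : ℝ) ^ α := by rw [hW]; exact Nat.floor_le (by positivity)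
  have hW2' : 2 ≤ W := by
    rw [hW]
    exact Nat.le_floor (by exact_mod_cast hW2)
  obtain ⟨K, hK⟩ : ∃ K, K = ⌊(m : ℝ) ^ θ⌋₊ := ⟨_, rfl⟩
  have hK1 : (K : ℝ) ≤ (m : ℝ) ^ θ := by rw [hK]; exact Nat.floor_le (by positivity)
  obtain ⟨S0, hS0⟩ : ∃ S0, S0 = ⌊(2 : ℝ) ^ ((m : ℝ) ^ α)⌋₊ := ⟨_, rfl⟩
  have hS01 : (S0 : ℝ) ≤ 2 ^ ((m : ℝ) ^ α) := by rw [hS0]; exact Nat.floor_le (by positivity)
  have hblk := tri_block (q := q) W K (3 * S0 + K) t hq0 ht0 htq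
  have : Nonempty (Fin q) := ⟨⟨0, hq0⟩⟩
  have : Nonempty (Fin P) := ⟨⟨0, hP0⟩⟩
  refine ⟨Fin P × (Fin P → (Fin 3 × Fin q → Bool)) × (Fin 3 → Fin q), inferInstance,
    inferInstance, yesG D, noG D, fun l => ⟨?_, yesG_tri D l⟩, fun l => ⟨?_, noG_tri D l⟩, ?_⟩
  · exact (gr_card D0 hNn (by norm_num) _).trans htm
  · exact (gr_card D0 hNn (by norm_num) _).trans htm
  intro s T Mx w ar op θ' val o τ htop hmono hwid hmax hT hval h1 h2 h3
  have hc1 : cnt Mx s = (univ.filter (fun i => i ∉ Mx)).card := by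
    unfold cnt
    congr 1
    ext i
    simp
  have hc2 : wir w s = ∑ i, (w i + 1) := by
    unfold wir
    congr 1
    ext i
    simp
  have hKc : cnt Mx s + ∑ i ∈ T, w i ≤ K := by
    rw [hc1, hK]
    exact Nat.le_floor h1
  have hwS : ∑ i, w i ≤ S0 := by
    rw [hS0]
    exact Nat.le_floor h2
  have hTS : ∑ i ∈ T, w i ≤ S0 := by
    refine le_trans ?_ hwS
    exact Finset.sum_le_sum_of_subset (Finset.subset_univ _)
  have hsS : s ≤ S0 + K := by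
    have g1 : (univ : Finset (Fin s)).card = s := by simp
    have g2 : (univ : Finset (Fin s)).card ≤ Mx.card + (univ.filter (fun i => i ∉ Mx)).card := by
      refine (Finset.card_le_card ?_).trans (Finset.card_union_le _ _)
      intro i _
      rw [Finset.mem_union, Finset.mem_filter]
      by_cases hi : i ∈ Mx
      · exact Or.inl hi
      · exact Or.inr ⟨mem_univ _, hi⟩
    have g3 : Mx.card ≤ ∑ i, w i := by
      calc Mx.card = ∑ _i ∈ Mx, 1 := by simp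
        _ ≤ ∑ i ∈ Mx, w i := by
            apply Finset.sum_le_sum
            intro i hi
            obtain ⟨j, _⟩ := (hmax i hi (fun _ => 0)).1
            have := j.isLt
            omega
        _ ≤ _ := Finset.sum_le_sum_of_subset (Finset.subset_univ _)
    rw [hc1] at hKc
    omega
  have hSc : wir w s + ∑ i ∈ T, w i ≤ 3 * S0 + K := by
    rw [hc2, Finset.sum_add_distrib]
    have : ∑ _i : Fin s, 1 = s := by simp
    rw [this]
    omega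
  have hmain := avg_chainM (ε := ((K * (W * (3 * t ^ 2)) ^ 2 + 3 * t ^ 2 * q) / (q : ℝ) ^ 3 +
    ((3 * S0 + K : ℕ) : ℝ) / 2 ^ t)) hblk hP0 hW2' (loc D) htop
    (fun i hi hi' => ⟨by
      rw [hW]
      exact Nat.le_floor (hwid i hi hi'), hmono i hi hi'⟩) hmax hT hval hKc hSc o τ
  have hyes : ∀ l : Fin P × (Fin P → (Fin 3 × Fin q → Bool)) × (Fin 3 → Fin q),
      yesD (loc D) tp tn l = fun e => decide (e ∈ (yesG D l).edgeSet) := by
    intro l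
    unfold yesD yesG
    exact gr_input D _
  have hno : ∀ l : Fin P × (Fin P → (Fin 3 × Fin q → Bool)) × (Fin 3 → Fin q),
      noD (P := Fin 3 → Fin q) (loc D) tn l = fun e => decide (e ∈ (noG D l).edgeSet) := by
    intro l
    unfold noD noG
    exact gr_input D _
  simp only [hyes, hno] at hmain
  -- the errors
  have hNθ : (0 : ℝ) < (N : ℝ) ^ (2 / 3 * θ + η / 2) := by positivity
  have hq3 : (N : ℝ) ^ (2 * θ + 3 / 2 * η) ≤ 8 * (q : ℝ) ^ 3 := by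
    have e : (N : ℝ) ^ (2 * θ + 3 / 2 * η) = ((N : ℝ) ^ (2 / 3 * θ + η / 2)) ^ 3 := by
      rw [← Real.rpow_natCast, ← Real.rpow_mul hN0.le]
      congr 1
      push_cast
      ring
    rw [e]
    calc ((N : ℝ) ^ (2 / 3 * θ + η / 2)) ^ 3 ≤ (2 * q) ^ 3 := by gcongr
      _ = _ := by ring
  have hq2 : (N : ℝ) ^ η ≤ 4 * (q : ℝ) ^ 2 := by
    calc (N : ℝ) ^ η ≤ (N : ℝ) ^ (2 * (2 / 3 * θ + η / 2)) :=
          Real.rpow_le_rpow_of_exponent_le hN1 (by linarith)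
      _ = ((N : ℝ) ^ (2 / 3 * θ + η / 2)) ^ 2 := by
          rw [← Real.rpow_natCast, ← Real.rpow_mul hN0.le]
          congr 1
          push_cast
          ring
      _ ≤ (2 * q) ^ 2 := by gcongr
      _ = _ := by ring
  have ht4 : (t : ℝ) ^ 2 ≤ 4 * (N : ℝ) ^ (η / 10) := by
    calc (t : ℝ) ^ 2 ≤ (2 * (N : ℝ) ^ (η / 20)) ^ 2 := by gcongr
      _ = 4 * ((N : ℝ) ^ (η / 20) * (N : ℝ) ^ (η / 20)) := by ring
      _ = _ := by
          rw [← Real.rpow_add hN0]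
          congr 2
          ring
  have b1 : (K * (W * (3 * t ^ 2)) ^ 2) / (q : ℝ) ^ 3 ≤ (N : ℝ) ^ (-(η / 50)) / 16 := by
    rw [div_le_div_iff₀ (by positivity) (by norm_num)]
    have g1 : (K : ℝ) * (W * (3 * t ^ 2)) ^ 2 ≤
        (4 ^ θ * (N : ℝ) ^ (2 * θ)) * (2 * (N : ℝ) ^ (η / 50) * (3 * (4 * (N : ℝ) ^ (η / 10)))) ^ 2 := by
      have g2 : (K : ℝ) ≤ 4 ^ θ * (N : ℝ) ^ (2 * θ) := hK1.trans (hpow θ hθ)
      have g3 : (W : ℝ) ≤ 2 * (N : ℝ) ^ (η / 50) := hW1.trans hmα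
      gcongr
    have g4 : (4 ^ θ * (N : ℝ) ^ (2 * θ)) *
        (2 * (N : ℝ) ^ (η / 50) * (3 * (4 * (N : ℝ) ^ (η / 10)))) ^ 2 =
        4 ^ θ * (2 * (3 * 4)) ^ 2 * (N : ℝ) ^ (2 * θ + 6 / 25 * η) := by
      have : (N : ℝ) ^ (2 * θ + 6 / 25 * η) = (N : ℝ) ^ (2 * θ) *
          (((N : ℝ) ^ (η / 50) * (N : ℝ) ^ (η / 10)) * ((N : ℝ) ^ (η / 50) * (N : ℝ) ^ (η / 10))) := by
        rw [← Real.rpow_add hN0, ← Real.rpow_add hN0, ← Real.rpow_add hN0]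
        congr 1
        ring
      rw [this]
      ring
    have g5 : (N : ℝ) ^ (2 * θ + 6 / 25 * η) =
        (N : ℝ) ^ (-(63 / 50 * η)) * (N : ℝ) ^ (2 * θ + 3 / 2 * η) := by
      rw [← Real.rpow_add hN0]
      congr 1
      ring
    calc (K : ℝ) * (W * (3 * t ^ 2)) ^ 2 * 16 ≤
        (4 ^ θ * (2 * (3 * 4)) ^ 2 * ((N : ℝ) ^ (-(63 / 50 * η)) *
          (N : ℝ) ^ (2 * θ + 3 / 2 * η))) * 16 := by
          rw [← g5, ← g4]
          gcongr
      _ ≤ (4 ^ θ * (2 * (3 * 4)) ^ 2 * ((N : ℝ) ^ (-(63 / 50 * η)) *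
          (8 * (q : ℝ) ^ 3))) * 16 := by gcongr
      _ = (4 ^ θ * (2 * (3 * 4)) ^ 2 * 8 * 16 * (N : ℝ) ^ (-(63 / 50 * η))) * (q : ℝ) ^ 3 := by
          ring
      _ ≤ (N : ℝ) ^ (-(η / 50)) * (q : ℝ) ^ 3 := by gcongr
  have b2 : (3 * t ^ 2 * q) / (q : ℝ) ^ 3 ≤ (N : ℝ) ^ (-(η / 50)) / 16 := by
    have g0 : (3 * (t : ℝ) ^ 2 * q) / (q : ℝ) ^ 3 = 3 * (t : ℝ) ^ 2 / (q : ℝ) ^ 2 := by
      field_simp
    rw [g0, div_le_div_iff₀ (by positivity) (by norm_num)]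
    have g5 : (N : ℝ) ^ (η / 10) = (N : ℝ) ^ (-(9 / 10 * η)) * (N : ℝ) ^ η := by
      rw [← Real.rpow_add hN0]
      congr 1
      ring
    calc 3 * (t : ℝ) ^ 2 * 16 ≤ 3 * (4 * (N : ℝ) ^ (η / 10)) * 16 := by gcongr
      _ = 3 * (4 * ((N : ℝ) ^ (-(9 / 10 * η)) * (N : ℝ) ^ η)) * 16 := by rw [g5]
      _ ≤ 3 * (4 * ((N : ℝ) ^ (-(9 / 10 * η)) * (4 * (q : ℝ) ^ 2))) * 16 := by gcongr
      _ = (48 * 16 * (N : ℝ) ^ (-(9 / 10 * η))) * (q : ℝ) ^ 2 := by ring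
      _ ≤ (N : ℝ) ^ (-(η / 50)) * (q : ℝ) ^ 2 := by gcongr
  have b3 : ((3 * S0 + K : ℕ) : ℝ) / 2 ^ t ≤ (N : ℝ) ^ (-(η / 50)) / 16 := by
    set x := (N : ℝ) ^ (η / 50) with hx
    have hx0 : 0 < x := by positivity
    rw [div_le_div_iff₀ (by positivity) (by norm_num)]
    have g1 : (S0 : ℝ) ≤ 2 ^ (2 * x) := by
      refine hS01.trans ?_
      exact Real.rpow_le_rpow_of_exponent_le (by norm_num) hmα
    have g2 : (K : ℝ) ≤ 2 ^ (2 * x) := by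
      refine (hK1.trans (hpow θ hθ)).trans (f5.trans ?_)
      exact Real.rpow_le_rpow_of_exponent_le (by norm_num) (by linarith)
    have g3 : 4 * x ≤ (N : ℝ) ^ (η / 20) := by
      calc 4 * x ≤ (N : ℝ) ^ (3 / 100 * η) * x := by gcongr
        _ = _ := by
            rw [hx, ← Real.rpow_add hN0]
            congr 1
            ring
    have g4 : (2 : ℝ) ^ (4 * x) ≤ 2 ^ t := by
      rw [← Real.rpow_natCast]
      exact Real.rpow_le_rpow_of_exponent_le (by norm_num) (g3.trans ht1)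
    have g5 : (2 : ℝ) ^ (4 * x) = 2 ^ (2 * x) * (2 ^ x * 2 ^ x) := by
      rw [← Real.rpow_add (by norm_num), ← Real.rpow_add (by norm_num)]
      congr 1
      ring
    have g6 : (1 : ℝ) ≤ 2 ^ x := Real.one_le_rpow (by norm_num) hx0.le
    have g7 : (N : ℝ) ^ (-(η / 50)) = x⁻¹ := Real.rpow_neg hN0.le _
    have g8 : 4 * 16 * x ≤ 2 ^ x := f6
    rw [g7]
    have g9 : (0 : ℝ) < 2 ^ (2 * x) := by positivity
    have g10 : (0 : ℝ) < 2 ^ x := by positivity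
    have g11 : ((3 * S0 + K : ℕ) : ℝ) ≤ 4 * 2 ^ (2 * x) := by
      push_cast
      linarith
    calc ((3 * S0 + K : ℕ) : ℝ) * 16 ≤ (4 * 2 ^ (2 * x)) * 16 := by gcongr
      _ = x⁻¹ * (2 ^ (2 * x) * (4 * 16 * x)) := by field_simp
      _ ≤ x⁻¹ * (2 ^ (2 * x) * (2 ^ x * 2 ^ x)) := by
          have g12 : 4 * 16 * x ≤ (2 : ℝ) ^ x * 2 ^ x := by nlinarith
          exact mul_le_mul_of_nonneg_left (mul_le_mul_of_nonneg_left g12 g9.le)
            (inv_nonneg.mpr hx0.le)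
      _ = x⁻¹ * 2 ^ (4 * x) := by rw [g5]
      _ ≤ x⁻¹ * 2 ^ t := by gcongr
  have b4 : ((∏ i ∈ T, (w i + 1) : ℕ) : ℝ) / P ≤ (N : ℝ) ^ (-(η / 50)) / 16 := by
    rw [div_le_div_iff₀ hPR (by norm_num)]
    have g5 : (N : ℝ) ^ (2 * γ) = (N : ℝ) ^ (-(η / 2)) * (N : ℝ) ^ (2 * γ + η / 2) := by
      rw [← Real.rpow_add hN0]
      congr 1
      ring
    calc ((∏ i ∈ T, (w i + 1) : ℕ) : ℝ) * 16 ≤ (4 ^ γ * (N : ℝ) ^ (2 * γ)) * 16 := by
          gcongr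
          exact h3.trans (hpow γ hγ)
      _ = (4 ^ γ * 16 * (N : ℝ) ^ (-(η / 2))) * (N : ℝ) ^ (2 * γ + η / 2) := by
          rw [g5]
          ring
      _ ≤ (N : ℝ) ^ (-(η / 50)) * P := by gcongr
  have b5 : (N : ℝ) ^ (-(η / 50)) / 4 ≤ (m : ℝ) ^ (-α) := by
    rw [Real.rpow_neg hN0.le, Real.rpow_neg hm0.le]
    have g1 : (m : ℝ) ^ α ≤ 4 * (N : ℝ) ^ (η / 50) := by
      refine hmα.trans ?_
      have : (0 : ℝ) < (N : ℝ) ^ (η / 50) := by positivity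
      linarith
    calc ((N : ℝ) ^ (η / 50))⁻¹ / 4 = (4 * (N : ℝ) ^ (η / 50))⁻¹ := by
          rw [mul_inv]
          ring
      _ ≤ _ := inv_anti₀ (by positivity) g1
  have hsplit : (K * (W * (3 * t ^ 2)) ^ 2 + 3 * t ^ 2 * q) / (q : ℝ) ^ 3 =
      (K * (W * (3 * t ^ 2)) ^ 2) / (q : ℝ) ^ 3 + (3 * t ^ 2 * q) / (q : ℝ) ^ 3 := add_div _ _ _
  refine hmain.trans ?_
  rw [hsplit]
  linarith

end Pool.Agent.L7h66.MG
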