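import Pool.Agent.H560R2.Real4
import Pool.Agent.H560R2.Sum1

/-! Programs of monotone real gates with at most `W` inputs and of maxima of two functions. -/

set_option linter.unusedSectionVars false
set_option linter.unusedVariables false

namespace Pool.Agent.L7h66.MG

open Finset Pool.Agent.H560R2

section prog

variable {X X' : Type*}

/-- Programs with `k` monotone gates with at most `W` inputs and any number of maxima. -/
inductive MProg (W : ℕ) (B : Set (X → ℝ)) : ℕ → List (X → ℝ) → Prop
  | nil : MProg W B 0 []
  | gate {k : ℕ} {L : List (X → ℝ)} (w : ℕ) (hw : w ≤ W) (φ : (Fin w → ℝ) → ℝ) (hφ : Monotone φ)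
      (f : Fin w → X → ℝ) (hL : MProg W B k L) (hf : ∀ j, f j ∈ B ∨ f j ∈ L) :
      MProg W B (k + 1) ((fun x => φ (fun j => f j x)) :: L)
  | sup {k : ℕ} {L : List (X → ℝ)} (f g : X → ℝ) (hL : MProg W B k L) (hf : f ∈ B ∨ f ∈ L)
      (hg : g ∈ B ∨ g ∈ L) : MProg W B k ((fun x => max (f x) (g x)) :: L)

lemma MProg.comp {W k : ℕ} {B : Set (X → ℝ)} {B' : Set (X' → ℝ)} (E : X' → X)
    (hE : ∀ b ∈ B, (fun y => b (E y)) ∈ B') {L : List (X → ℝ)} (h : MProg W B k L) :
    MProg W B' k (L.map (fun f y => f (E y))) := by
  induction h with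
  | nil => exact MProg.nil
  | @gate k L w hw φ hφ f hL hf ih =>
    rw [List.map_cons]
    refine MProg.gate w hw φ hφ (fun j y => f j (E y)) ih (fun j => ?_)
    rcases hf j with h | h
    · exact Or.inl (hE _ h)
    · exact Or.inr (List.mem_map.mpr ⟨f j, h, rfl⟩)
  | @sup k L f g hL hf hg ih =>
    rw [List.map_cons]
    refine MProg.sup (fun y => f (E y)) (fun y => g (E y)) ih ?_ ?_
    · rcases hf with h | h
      · exact Or.inl (hE _ h)
      · exact Or.inr (List.mem_map.mpr ⟨f, h, rfl⟩)
    · rcases hg with h | h
      · exact Or.inl (hE _ h)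
      · exact Or.inr (List.mem_map.mpr ⟨g, h, rfl⟩)

lemma MProg.mono_of [Preorder X] {W k : ℕ} {B : Set (X → ℝ)} (hB : ∀ b ∈ B, Monotone b)
    {L : List (X → ℝ)} (h : MProg W B k L) : ∀ f, (f ∈ B ∨ f ∈ L) → Monotone f := by
  induction h with
  | nil =>
    intro f hf
    rcases hf with hf | hf
    · exact hB f hf
    · simp at hf
  | @gate k L w hw φ hφ f hL hf ih =>
    intro g hg
    rcases hg with hg | hg
    · exact hB g hg
    · rcases List.mem_cons.mp hg with rfl | hg
      · intro x y hxy
        exact hφ (fun j => ih (f j) (hf j) hxy)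
      · exact ih g (Or.inr hg)
  | @sup k L f g hL hf hg ih =>
    intro g' hg'
    rcases hg' with hg' | hg'
    · exact hB g' hg'
    · rcases List.mem_cons.mp hg' with rfl | hg'
      · intro x y hxy
        exact max_le_max (ih f hf hxy) (ih g hg hxy)
      · exact ih g' (Or.inr hg')

/-- the maximum of several available functions -/
lemma sup_many {W k : ℕ} {B : Set (X → ℝ)} {L : List (X → ℝ)} (hL : MProg W B k L) :
    ∀ {n : ℕ} (f : Fin (n + 1) → X → ℝ), (∀ j, f j ∈ B ∨ f j ∈ L) →
    ∃ L' g, MProg W B k L' ∧ L'.length ≤ L.length + n ∧ (∀ h ∈ L, h ∈ L') ∧ (g ∈ B ∨ g ∈ L') ∧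
      ∀ x, IsGreatest (Set.range (fun j => f j x)) (g x) := by
  intro n
  induction n with
  | zero =>
    intro f hf
    refine ⟨L, f 0, hL, le_rfl, fun h hh => hh, hf 0, fun x => ⟨⟨0, rfl⟩, ?_⟩⟩
    rintro _ ⟨j, rfl⟩
    have : j = 0 := by
      apply Fin.ext
      have h1 := j.isLt
      have h2 : ((0 : Fin (0 + 1)) : ℕ) = 0 := rfl
      omega
    rw [this]
  | succ n ih =>
    intro f hf
    obtain ⟨L', g, h1, h2, h3, h4, h5⟩ := ih (fun j => f (Fin.castSucc j)) (fun j => hf _)
    refine ⟨(fun x => max (g x) (f (Fin.last (n + 1)) x)) :: L',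
      fun x => max (g x) (f (Fin.last (n + 1)) x), MProg.sup g _ h1 h4 ?_, ?_,
      fun h hh => List.mem_cons_of_mem _ (h3 h hh), Or.inr List.mem_cons_self, fun x => ?_⟩
    · rcases hf (Fin.last (n + 1)) with h | h
      · exact Or.inl h
      · exact Or.inr (h3 _ h)
    · rw [List.length_cons]
      omega
    · obtain ⟨⟨j, hj⟩, hub⟩ := h5 x
      have hj' : f (Fin.castSucc j) x = g x := hj
      constructor
      · rcases le_total (g x) (f (Fin.last (n + 1)) x) with h | h
        · exact ⟨Fin.last (n + 1), (max_eq_right h).symm⟩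
        · exact ⟨Fin.castSucc j, hj'.trans (max_eq_left h).symm⟩
      · rintro _ ⟨i, rfl⟩
        refine Fin.lastCases ?_ (fun i => ?_) i
        · exact le_max_right _ _
        · exact (hub ⟨i, rfl⟩).trans (le_max_left _ _)

end prog

/-- a maximum is monotone -/
lemma mono_of_greatest {w : ℕ} {φ : (Fin w → ℝ) → ℝ}
    (h : ∀ z, IsGreatest (Set.range z) (φ z)) : Monotone φ := by
  intro z z' hz
  obtain ⟨j, hj⟩ := (h z).1
  rw [← hj]
  exact (hz j).trans ((h z').2 ⟨j, rfl⟩)

section circ

variable {I : Type} {s : ℕ}

variable {T M : Finset (Fin s)} {W : ℕ} {w : Fin s → ℕ} {a : ∀ i, Fin (w i) → I ⊕ Fin s}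
  {op : ∀ i, (Fin (w i) → ℝ) → ℝ} {θ : ∀ i, Fin (w i) → ℝ} {val : (I → Bool) → Fin s → ℝ}

/-- the number of gates before `k` that are not maxima -/
def cnt (M : Finset (Fin s)) (k : ℕ) : ℕ :=
  (univ.filter (fun i : Fin s => i ∉ M ∧ i.val < k)).card

/-- the number of wires and gates before `k` -/
def wir (w : Fin s → ℕ) (k : ℕ) : ℕ := ∑ i ∈ univ.filter (fun i : Fin s => i.val < k), (w i + 1)

lemma filter_succ {k : ℕ} (hk : k < s) (Q : Fin s → Prop) [DecidablePred Q] :
    univ.filter (fun i : Fin s => Q i ∧ i.val < k + 1) =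
      (if Q ⟨k, hk⟩ then insert ⟨k, hk⟩ (univ.filter (fun i : Fin s => Q i ∧ i.val < k))
        else univ.filter (fun i : Fin s => Q i ∧ i.val < k)) := by
  classical
  split_ifs with hQ
  · ext i
    rw [Finset.mem_insert, Finset.mem_filter, Finset.mem_filter]
    constructor
    · rintro ⟨h2, h3, h4⟩
      by_cases hik : i = ⟨k, hk⟩
      · exact Or.inl hik
      · have : (i : ℕ) ≠ k := fun h => hik (Fin.ext h)
        exact Or.inr ⟨mem_univ _, h3, by omega⟩
    · rintro (rfl | ⟨h2, h3, h4⟩)
      · exact ⟨mem_univ _, hQ, Nat.lt_succ_self k⟩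
      · exact ⟨mem_univ _, h3, by omega⟩
  · ext i
    rw [Finset.mem_filter, Finset.mem_filter]
    constructor
    · rintro ⟨h2, h3, h4⟩
      have : (i : ℕ) ≠ k := by
        intro h
        have e : i = ⟨k, hk⟩ := Fin.ext h
        rw [e] at h3
        exact hQ h3
      exact ⟨mem_univ _, h3, by omega⟩
    · rintro ⟨h2, h3, h4⟩
      exact ⟨mem_univ _, h3, by omega⟩

lemma cnt_succ {k : ℕ} (hk : k < s) : cnt M (k + 1) =
    cnt M k + (if (⟨k, hk⟩ : Fin s) ∈ M then 0 else 1) := by
  classical
  unfold cnt
  rw [filter_succ hk (fun i => i ∉ M)]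
  by_cases h : (⟨k, hk⟩ : Fin s) ∈ M
  · rw [if_neg (not_not.mpr h), if_pos h, Nat.add_zero]
  · rw [if_pos h, if_neg h, Finset.card_insert_of_notMem (by simp)]

lemma wir_succ {k : ℕ} (hk : k < s) : wir w (k + 1) = wir w k + (w ⟨k, hk⟩ + 1) := by
  classical
  unfold wir
  have h := filter_succ hk (fun _ => True)
  simp only [true_and, if_true] at h
  rw [h, Finset.sum_insert (by simp), Nat.add_comm]

open Classical in
/-- freezing the gates of `T` -/
theorem frozenM (htop : ∀ i j k, a i j = Sum.inr k → k < i)
    (hmon : ∀ i ∉ T, i ∉ M → w i ≤ W ∧ Monotone (op i))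
    (hmax : ∀ i ∈ M, ∀ z, IsGreatest (Set.range z) (op i z)) (x0 : I → Bool) :
    ∀ k ≤ s, ∃ (c : ℕ) (L : List ((I → Bool) → ℝ)) (ρ : Fin s → (I → Bool) → ℝ),
      MProg W (RB I) c L ∧ c ≤ cnt M k ∧ L.length ≤ wir w k ∧
      (∀ i : Fin s, i.val < k → ρ i ∈ RB I ∨ ρ i ∈ L) ∧
      ∀ i : Fin s, i.val < k → ∀ x, ρ i x = if i ∈ T then val x0 i else
        op i (fun j => Sum.elim (bit x) (fun k => ρ k x) (a i j)) := by
  intro k
  induction k with
  | zero =>
    intro _
    exact ⟨0, [], fun _ _ => 0, MProg.nil, Nat.zero_le _, Nat.zero_le _,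
      fun i hi => absurd hi (Nat.not_lt_zero _),
      fun i hi => absurd hi (Nat.not_lt_zero _)⟩
  | succ k ih =>
    intro hk
    obtain ⟨c, L, ρ, hL, hc, hlen, hav, heq⟩ := ih (by omega)
    have hcs := cnt_succ (M := M) hk
    have hws := wir_succ (w := w) hk
    let g : Fin s := ⟨k, hk⟩
    -- changing `ρ` at `g` does not affect earlier equations
    have hkeep : ∀ (u : (I → Bool) → ℝ) (i : Fin s), i.val ≤ k → ∀ x j,
        Sum.elim (bit x) (fun k => Function.update ρ g u k x) (a i j) =
        Sum.elim (bit x) (fun k => ρ k x) (a i j) := by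
      intro u i hi x j
      rcases hm : a i j with p | m
      · rfl
      · have h1 := htop i j m hm
        have : m ≠ g := by
          rintro rfl
          have h2 : (g : ℕ) < i := h1
          have h3 : (g : ℕ) = k := rfl
          omega
        simp only [Sum.elim_inr, Function.update_of_ne this]
    by_cases hgT : g ∈ T
    · refine ⟨c, L, Function.update ρ g (fun _ => val x0 g), hL, by omega, by omega, ?_, ?_⟩
      · intro i hi
        by_cases hig : i = g
        · subst hig
          rw [Function.update_self]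
          exact Or.inl (Or.inl ⟨_, rfl⟩)
        · rw [Function.update_of_ne hig]
          apply hav
          have : (i : ℕ) ≠ k := fun h => hig (Fin.ext h)
          omega
      · intro i hi x
        simp only [hkeep _ i (by omega)]
        by_cases hig : i = g
        · subst hig
          rw [Function.update_self, if_pos hgT]
        · rw [Function.update_of_ne hig]
          apply heq
          have : (i : ℕ) ≠ k := fun h => hig (Fin.ext h)
          omega
    · let f : Fin (w g) → (I → Bool) → ℝ := fun j x => Sum.elim (bit x) (fun k => ρ k x) (a g j)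
      have hf : ∀ j, f j ∈ RB I ∨ f j ∈ L := by
        intro j
        rcases hm : a g j with p | m
        · left
          right
          refine ⟨p, ?_⟩
          funext x
          simp only [f, hm, Sum.elim_inl]
        · have h1 : (m : ℕ) < k := htop g j m hm
          have : f j = ρ m := by
            funext x
            simp only [f, hm, Sum.elim_inr]
          rw [this]
          exact hav m h1
      -- the new function
      obtain ⟨c', L', u, hL', hc', hlen', hsub, huav, hu⟩ : ∃ (c' : ℕ)
          (L' : List ((I → Bool) → ℝ)) (u : (I → Bool) → ℝ), MProg W (RB I) c' L' ∧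
          c' ≤ cnt M (k + 1) ∧ L'.length ≤ wir w (k + 1) ∧ (∀ h ∈ L, h ∈ L') ∧
          (u ∈ RB I ∨ u ∈ L') ∧ ∀ x, u x = op g (fun j => f j x) := by
        by_cases hgM : g ∈ M
        · obtain ⟨n, hn⟩ : ∃ n, w g = n + 1 := by
            obtain ⟨j, hj⟩ := (hmax g hgM (fun _ => 0)).1
            have := j.isLt
            exact ⟨w g - 1, by omega⟩
          obtain ⟨L', u, h1, h2, h3, h4, h5⟩ := sup_many hL
            (fun j : Fin (n + 1) => f (Fin.cast hn.symm j)) (fun j => hf _)
          refine ⟨c, L', u, h1, ?_, ?_, h3, h4, fun x => ?_⟩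
          · rw [hcs]
            omega
          · rw [hws]
            have : w g = w ⟨k, hk⟩ := rfl
            omega
          · have hr : Set.range (fun j : Fin (n + 1) => f (Fin.cast hn.symm j) x) =
                Set.range (fun j : Fin (w g) => f j x) := by
              ext y
              constructor
              · rintro ⟨j, rfl⟩
                exact ⟨_, rfl⟩
              · rintro ⟨j, rfl⟩
                exact ⟨Fin.cast hn j, rfl⟩
            have h6 := h5 x
            rw [hr] at h6
            exact h6.unique (hmax g hgM _)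
        · refine ⟨c + 1, (fun x => op g (fun j => f j x)) :: L, fun x => op g (fun j => f j x),
            MProg.gate (w g) (hmon g hgT hgM).1 (op g) (hmon g hgT hgM).2 f hL hf, ?_, ?_,
            fun h hh => List.mem_cons_of_mem _ hh, Or.inr List.mem_cons_self, fun x => rfl⟩
          · rw [hcs, if_neg hgM]
            omega
          · rw [hws, List.length_cons]
            omega
      refine ⟨c', L', Function.update ρ g u, hL', hc', hlen', ?_, ?_⟩
      · intro i hi
        by_cases hig : i = g
        · subst hig
          rw [Function.update_self]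
          exact huav
        · rw [Function.update_of_ne hig]
          have : (i : ℕ) ≠ k := fun h => hig (Fin.ext h)
          rcases hav i (by omega) with h | h
          · exact Or.inl h
          · exact Or.inr (hsub _ h)
      · intro i hi x
        simp only [hkeep _ i (by omega)]
        by_cases hig : i = g
        · subst hig
          rw [Function.update_self, if_neg hgT, hu]
        · rw [Function.update_of_ne hig]
          apply heq
          have : (i : ℕ) ≠ k := fun h => hig (Fin.ext h)
          omega

/-- the OR with a finite set of thresholds -/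
lemma or_thrM {X P : Type*} {W c : ℕ} (hW : 2 ≤ W) {B : Set (X → ℝ)} {L : List (X → ℝ)}
    (hL : MProg W B c L) (u : X → ℝ)
    (hu : u ∈ B ∨ u ∈ L) (τ : ℝ) (v : P → X → ℝ) (th : P → ℝ) (S : Finset P)
    (hv : ∀ p ∈ S, v p ∈ B ∨ v p ∈ L) :
    ∃ c' L' G, MProg W B c' L' ∧ c' ≤ c + S.card ∧ L'.length ≤ L.length + S.card ∧
      (∀ f ∈ L, f ∈ L') ∧ (G ∈ B ∨ G ∈ L') ∧
      ∀ x, τ ≤ G x ↔ (τ ≤ u x ∨ ∃ p ∈ S, th p ≤ v p x) := by
  classical
  induction S using Finset.induction_on with
  | empty => exact ⟨c, L, u, hL, by simp, by simp, fun f h => h, hu, fun x => by simp⟩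
  | insert p S hp ih =>
    obtain ⟨c', L', G, h1, h1', h2, h3, h4, h5⟩ := ih (fun q hq => hv q (Finset.mem_insert_of_mem hq))
    let φ : (Fin 2 → ℝ) → ℝ := fun z => if th p ≤ z 1 then max (z 0) τ else z 0
    have hφ : Monotone φ := by
      intro z z' hz
      have e0 := hz 0
      have e1 := hz 1
      simp only [φ]
      by_cases c1 : th p ≤ z 1
      · rw [if_pos c1, if_pos (c1.trans e1)]
        exact max_le_max e0 le_rfl
      · rw [if_neg c1]
        split_ifs
        · exact e0.trans (le_max_left _ _)
        · exact e0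
    let f : Fin 2 → X → ℝ := fun j => if j = 0 then G else v p
    refine ⟨c' + 1, (fun x => φ (fun j => f j x)) :: L', fun x => φ (fun j => f j x),
      MProg.gate 2 hW φ hφ f h1 ?_, ?_, ?_, fun g hg => List.mem_cons_of_mem _ (h3 g hg),
      Or.inr List.mem_cons_self, ?_⟩
    · intro j
      by_cases hj : j = 0
      · simp only [f, hj, if_true]
        exact h4
      · simp only [f, hj, if_false]
        rcases hv p (Finset.mem_insert_self _ _) with h | h
        · exact Or.inl h
        · exact Or.inr (h3 _ h)
    · rw [Finset.card_insert_of_notMem hp]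
      omega
    · rw [List.length_cons, Finset.card_insert_of_notMem hp]
      omega
    · intro x
      have e : φ (fun j => f j x) = if th p ≤ v p x then max (G x) τ else G x := by
        simp [φ, f]
      show τ ≤ φ (fun j => f j x) ↔ _
      rw [e]
      by_cases c1 : th p ≤ v p x
      · rw [if_pos c1]
        constructor
        · intro _
          exact Or.inr ⟨p, Finset.mem_insert_self _ _, c1⟩
        · intro _
          exact le_max_right _ _
      · rw [if_neg c1, h5]
        constructor
        · rintro (h | ⟨q, hq, h⟩)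
          · exact Or.inl h
          · exact Or.inr ⟨q, Finset.mem_insert_of_mem hq, h⟩
        · rintro (h | ⟨q, hq, h⟩)
          · exact Or.inl h
          · rcases Finset.mem_insert.mp hq with rfl | hq
            · exact absurd h c1
            · exact Or.inr ⟨q, hq, h⟩

/-- the flip lemma -/
theorem flipM (hW : 2 ≤ W) (htop : ∀ i j k, a i j = Sum.inr k → k < i)
    (hmon : ∀ i ∉ T, i ∉ M → w i ≤ W ∧ Monotone (op i))
    (hmax : ∀ i ∈ M, ∀ z, IsGreatest (Set.range z) (op i z))
    (hT : ∀ i ∈ T, ∀ z z' : Fin (w i) → ℝ, (∀ j, θ i j ≤ z j ↔ θ i j ≤ z' j) → op i z = op i z')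
    (hval : ∀ x i, val x i = op i (fun j => Sum.elim (bit x) (val x) (a i j)))
    (o : Fin s) (τ : ℝ) (x0 : I → Bool) :
    ∃ (c : ℕ) (L : List ((I → Bool) → ℝ)) (G : (I → Bool) → ℝ), MProg W (RB I) c L ∧
      c ≤ cnt M s + ∑ i ∈ T, w i ∧
      L.length ≤ wir w s + ∑ i ∈ T, w i ∧ (G ∈ RB I ∨ G ∈ L) ∧
      ∀ x, x0 ≤ x → (τ ≤ G x ↔ ((∃ i ∈ T, ∃ j, ¬ (prb a θ val x i j ↔ prb a θ val x0 i j)) ∨
        τ ≤ val x o)) := by
  classical
  obtain ⟨c, L, ρ, hL, hc, hlen, hav, heq⟩ := frozenM (val := val) htop hmon hmax x0 s le_rfl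
  -- frozen wires
  let fw : (I → Bool) → ∀ i, Fin (w i) → ℝ := fun x i j => Sum.elim (bit x) (fun k => ρ k x) (a i j)
  have hwav : ∀ i j, (fun x => fw x i j) ∈ RB I ∨ (fun x => fw x i j) ∈ L := by
    intro i j
    rcases hm : a i j with p | m
    · left
      right
      refine ⟨p, ?_⟩
      funext x
      simp only [fw, hm, Sum.elim_inl]
    · have : (fun x => fw x i j) = ρ m := by
        funext x
        simp only [fw, hm, Sum.elim_inr]
      rw [this]
      exact hav m m.isLt
  have hmono : ∀ f, (f ∈ RB I ∨ f ∈ L) → Monotone f := hL.mono_of RB_mono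
  -- equal values imply equal wires
  have hwire : ∀ x (i : Fin s), (∀ k < i, ρ k x = val x k) → ∀ j,
      fw x i j = Sum.elim (bit x) (val x) (a i j) := by
    intro x i h j
    simp only [fw]
    rcases hm : a i j with p | m
    · rfl
    · simp only [Sum.elim_inr]
      exact h m (htop i j m hm)
  have c0 : ∀ i, ρ i x0 = val x0 i := by
    intro i
    induction i using WellFoundedLT.induction with
    | ind i ih =>
      rw [heq i i.isLt x0]
      by_cases hi : i ∈ T
      · rw [if_pos hi]
      · rw [if_neg hi, hval]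
        congr 1
        funext j
        exact hwire x0 i ih j
  have hw0 : ∀ i j, fw x0 i j = Sum.elim (bit x0) (val x0) (a i j) :=
    fun i j => hwire x0 i (fun k _ => c0 k) j
  have c1 : ∀ x, (∀ i ∈ T, ∀ j, (θ i j ≤ fw x i j ↔ θ i j ≤ fw x0 i j)) →
      ∀ i, ρ i x = val x i := by
    intro x hx i
    induction i using WellFoundedLT.induction with
    | ind i ih =>
      rw [heq i i.isLt x]
      by_cases hi : i ∈ T
      · rw [if_pos hi, hval x0, hval x]
        apply hT i hi
        intro j
        rw [← hw0, ← hwire x i ih j]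
        exact (hx i hi j).symm
      · rw [if_neg hi, hval x]
        congr 1
        funext j
        exact hwire x i ih j
  have c2 : ∀ x, (∀ i ∈ T, ∀ j, (prb a θ val x i j ↔ prb a θ val x0 i j)) →
      ∀ i, ρ i x = val x i := by
    intro x hx i
    induction i using WellFoundedLT.induction with
    | ind i ih =>
      rw [heq i i.isLt x]
      by_cases hi : i ∈ T
      · rw [if_pos hi, hval x0, hval x]
        apply hT i hi
        intro j
        exact (hx i hi j).symm
      · rw [if_neg hi, hval x]
        congr 1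
        funext j
        exact hwire x i ih j
  let S : Finset (Σ i : Fin s, Fin (w i)) :=
    (T.sigma (fun _ => univ)).filter (fun p => ¬ θ p.1 p.2 ≤ fw x0 p.1 p.2)
  have hSc : S.card ≤ ∑ i ∈ T, w i := by
    refine (Finset.card_filter_le _ _).trans ?_
    rw [Finset.card_sigma]
    simp
  obtain ⟨c', L', G, h1, h1', h2, h3, h4, h5⟩ := or_thrM hW hL (ρ o) (hav o o.isLt) τ
    (fun (p : Σ i : Fin s, Fin (w i)) x => fw x p.1 p.2) (fun p => θ p.1 p.2) S
    (fun p _ => hwav p.1 p.2)
  refine ⟨c', L', G, h1, by omega, by omega, h4, ?_⟩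
  intro x hx
  rw [h5]
  by_cases hall : ∀ i ∈ T, ∀ j, (prb a θ val x i j ↔ prb a θ val x0 i j)
  · have hρ := c2 x hall
    have hno : ¬ ∃ i ∈ T, ∃ j, ¬ (prb a θ val x i j ↔ prb a θ val x0 i j) := by
      rintro ⟨i, hi, j, h⟩
      exact h (hall i hi j)
    have hnoS : ¬ ∃ p ∈ S, θ p.1 p.2 ≤ fw x p.1 p.2 := by
      rintro ⟨⟨i, j⟩, hp, h⟩
      rw [Finset.mem_filter, Finset.mem_sigma] at hp
      apply hp.2
      have h6 := hall i hp.1.1 j
      unfold prb at h6
      rw [← hwire x i (fun k _ => hρ k) j, ← hw0] at h6
      exact h6.mp h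
    rw [hρ o]
    constructor
    · rintro (h | h)
      · exact Or.inr h
      · exact absurd h hnoS
    · rintro (h | h)
      · exact absurd h hno
      · exact Or.inl h
  · have hyes : ∃ i ∈ T, ∃ j, ¬ (prb a θ val x i j ↔ prb a θ val x0 i j) := by
      by_contra hcon
      push Not at hcon
      apply hall
      intro i hi j
      have := hcon i hi j
      tauto
    have hfchg : ¬ ∀ i ∈ T, ∀ j, (θ i j ≤ fw x i j ↔ θ i j ≤ fw x0 i j) := by
      intro h
      have hρ := c1 x h
      apply hall
      intro i hi j
      have h6 := h i hi j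
      rw [hwire x i (fun k _ => hρ k) j, hw0] at h6
      exact h6
    have hS : ∃ p ∈ S, θ p.1 p.2 ≤ fw x p.1 p.2 := by
      push Not at hfchg
      obtain ⟨i, hi, j, hj⟩ := hfchg
      have hm : fw x0 i j ≤ fw x i j := hmono _ (hwav i j) hx
      rcases hj with ⟨h6, h7⟩ | ⟨h6, h7⟩
      · refine ⟨⟨i, j⟩, ?_, h6⟩
        rw [Finset.mem_filter, Finset.mem_sigma]
        exact ⟨⟨hi, mem_univ _⟩, not_le.mpr h7⟩
      · exfalso
        linarith
    constructor
    · intro _
      exact Or.inl hyes
    · intro _
      exact Or.inr hS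

lemma rk_monoM (htop : ∀ i j k, a i j = Sum.inr k → k < i)
    (hmon : ∀ i ∉ T, Monotone (op i))
    (hT : ∀ i ∈ T, ∀ z z' : Fin (w i) → ℝ, (∀ j, θ i j ≤ z j ↔ θ i j ≤ z' j) → op i z = op i z')
    (hval : ∀ x i, val x i = op i (fun j => Sum.elim (bit x) (val x) (a i j)))
    {x y : I → Bool} (hxy : x ≤ y) : ∀ k ≤ s, rk T a θ val x k < rk T a θ val y k ∨
      (rk T a θ val x k = rk T a θ val y k ∧
        (∀ i ∈ T, i.val < k → ∀ j, (prb a θ val x i j ↔ prb a θ val y i j)) ∧
        ∀ i : Fin s, i.val < k → val x i ≤ val y i) := by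
  classical
  intro k
  induction k with
  | zero =>
    intro _
    exact Or.inr ⟨rfl, fun i _ hi => absurd hi (Nat.not_lt_zero _),
      fun i hi => absurd hi (Nat.not_lt_zero _)⟩
  | succ k ih =>
    intro hk
    have h0 : k < s := hk
    rw [rk, rk, dif_pos h0, dif_pos h0]
    set g : Fin s := ⟨k, h0⟩ with hg
    -- wires are monotone
    have hwires : (∀ i : Fin s, i.val < k → val x i ≤ val y i) → ∀ j,
        Sum.elim (bit x) (val x) (a g j) ≤ Sum.elim (bit y) (val y) (a g j) := by
      intro h j
      rcases hm : a g j with p | m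
      · exact bit_mono hxy p
      · exact h m (htop g j m hm)
    have hle : ∀ z : I → Bool, (univ.filter (fun j => prb a θ val z g j)).card ≤ w g := by
      intro z
      refine (Finset.card_filter_le _ _).trans ?_
      simp
    rcases ih (by omega) with h1 | ⟨h1, h2, h3⟩
    · left
      by_cases hgT : g ∈ T
      · rw [if_pos hgT, if_pos hgT]
        have h4 : (rk T a θ val x k + 1) * (w g + 1) ≤ rk T a θ val y k * (w g + 1) :=
          Nat.mul_le_mul_right _ h1
        have h5 : (rk T a θ val x k + 1) * (w g + 1) =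
          rk T a θ val x k * (w g + 1) + (w g + 1) := by ring
        have h6 := hle x
        omega
      · rw [if_neg hgT, if_neg hgT]
        exact h1
    · by_cases hgT : g ∈ T
      · rw [if_pos hgT, if_pos hgT]
        have hsub : (univ.filter (fun j => prb a θ val x g j)) ⊆
            (univ.filter (fun j => prb a θ val y g j)) := by
          intro j hj
          rw [Finset.mem_filter] at hj ⊢
          refine ⟨mem_univ _, ?_⟩
          have h6 : prb a θ val x g j := hj.2
          unfold prb at h6 ⊢
          exact h6.trans (hwires h3 j)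
        rcases Nat.lt_or_ge (univ.filter (fun j => prb a θ val x g j)).card
          (univ.filter (fun j => prb a θ val y g j)).card with hlt | hge
        · left
          rw [h1]
          omega
        · right
          have heq := Finset.eq_of_subset_of_card_le hsub hge
          have hall : ∀ j, (prb a θ val x g j ↔ prb a θ val y g j) := by
            intro j
            have := Finset.ext_iff.mp heq j
            simp only [Finset.mem_filter, Finset.mem_univ, true_and] at this
            exact this
          refine ⟨by rw [h1, heq], ?_, ?_⟩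
          · intro i hi hik j
            by_cases hig : i = g
            · subst hig
              exact hall j
            · have : (i : ℕ) ≠ k := fun h => hig (Fin.ext h)
              exact h2 i hi (by omega) j
          · intro i hik
            by_cases hig : i = g
            · subst hig
              rw [hval x, hval y]
              exact (hT g hgT _ _ hall).le
            · have : (i : ℕ) ≠ k := fun h => hig (Fin.ext h)
              exact h3 i (by omega)
      · rw [if_neg hgT, if_neg hgT]
        right
        refine ⟨h1, ?_, ?_⟩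
        · intro i hi hik j
          have : (i : ℕ) ≠ k := by
            intro h
            have : i = g := Fin.ext h
            rw [this] at hi
            exact hgT hi
          exact h2 i hi (by omega) j
        · intro i hik
          by_cases hig : i = g
          · subst hig
            rw [hval x, hval y]
            exact (hmon g hgT) (hwires h3)
          · have : (i : ℕ) ≠ k := fun h => hig (Fin.ext h)
            exact h3 i (by omega)

end circ

end Pool.Agent.L7h66.MG
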